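import Pool.Agent.X66.IFS.C

set_option autoImplicit false

namespace Pool.Agent.X66.IFS
open Filter Topology Metric

theorem zero_on {φ : ℝ → ℝ} {a x : ℝ} (h0 : ∀ y ∈ Set.Icc (0:ℝ) 1, φ y = 0)
    (hx : x ∈ Set.Icc (0:ℝ) 1) (h : HasDerivAt φ a x) : a = 0 := by
  have hu : UniqueDiffWithinAt ℝ (Set.Icc (0:ℝ) 1) x := uniqueDiffOn_Icc zero_lt_one x hx
  have h1 : HasDerivWithinAt φ a (Set.Icc 0 1) x := h.hasDerivWithinAt
  have h2 : HasDerivWithinAt φ 0 (Set.Icc 0 1) x := by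
    apply (hasDerivWithinAt_const x (Set.Icc (0:ℝ) 1) (0:ℝ)).congr
    · intro y hy; exact h0 y hy
    · exact h0 x hx
  exact hu.eq_deriv _ h1 h2

namespace Par
variable (p : Par)

noncomputable def dr (t x : ℝ) (w : List (Fin 5)) : ℝ := (p.D t x w).re
noncomputable def hr (t x : ℝ) (w : List (Fin 5)) : ℝ := (p.H t x w).re

variable {t : ℝ} (ht0 : 0 ≤ t) (ht : t ≤ 1/4)

theorem nt {t : ℝ} (ht0 : 0 ≤ t) (ht : t ≤ 1/4) : ‖(t:ℂ)‖ ≤ 1/4 := by
  rw [Complex.norm_real, Real.norm_of_nonneg ht0]; exact ht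

include ht0 ht in
theorem D_real {x : ℝ} (hx : |x| ≤ p.R) (w : List (Fin 5)) :
    HasDerivAt (comp (fun i => p.fr i t) w) (p.dr t x w) x ∧ ((p.dr t x w : ℝ) : ℂ) = p.D t x w :=
  real_deriv (G := fun x => p.Z t x w) (g := comp (fun i => p.fr i t) w)
    (Eventually.of_forall fun y => p.Z_comp t y w)
    (p.hasDerivAt_Z (nt ht0 ht) (by rw [Complex.norm_real]; exact hx) w)

include ht0 ht in
theorem dr_ne {x : ℝ} (hx : |x| ≤ p.R) (w : List (Fin 5)) : p.dr t x w ≠ 0 := by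
  intro h
  have h1 := (p.D_real ht0 ht hx w).2
  rw [h] at h1
  exact p.D_ne (nt ht0 ht) (by rw [Complex.norm_real]; exact hx) w (by rw [← h1]; simp)

include ht0 ht in
theorem H_real {x : ℝ} (hx : |x| < p.R) (w : List (Fin 5)) :
    HasDerivAt (fun x => p.dr t x w) (p.dr t x w * p.hr t x w) x ∧
      ((p.hr t x w : ℝ) : ℂ) = p.H t x w := by
  have hev : ∀ᶠ y : ℝ in 𝓝 x, p.D t y w = ((p.dr t y w : ℝ) : ℂ) := by
    have : ∀ᶠ y : ℝ in 𝓝 x, |y| < p.R := (continuous_abs.tendsto x).eventually (gt_mem_nhds hx)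
    filter_upwards [this] with y hy
    exact (p.D_real ht0 ht hy.le w).2.symm
  have h1 := real_deriv (G := fun x => p.D t x w) (g := fun x => p.dr t x w) hev
    (p.hasDerivAt_D (nt ht0 ht) (by rw [Complex.norm_real]; exact hx.le) w)
  have hD := (p.D_real ht0 ht hx.le w).2
  have hne := p.dr_ne ht0 ht hx.le w
  have h2 : p.H t x w = (((p.D t x w * p.H t x w).re / p.dr t x w : ℝ) : ℂ) := by
    rw [Complex.ofReal_div, h1.2, hD]
    rw [← hD]
    have : ((p.dr t x w : ℝ) : ℂ) ≠ 0 := by exact_mod_cast hne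
    field_simp
  have h3 : ((p.hr t x w : ℝ) : ℂ) = p.H t x w := by
    rw [hr, h2, Complex.ofReal_re]
  refine ⟨h1.1.congr_deriv ?_, h3⟩
  rw [← hD, ← h3, ← Complex.ofReal_mul, Complex.ofReal_re]

theorem abs_le_R {x : ℝ} (hx : x ∈ Set.Icc (0:ℝ) 1) : |x| ≤ p.R := by
  rw [abs_of_nonneg hx.1]; exact hx.2.trans p.hR

/-- transformation rule of the nonlinearity -/
theorem nonlin (hR1 : 1 < p.R) (ht0 : 0 ≤ t) (ht : t ≤ 1/4) {g : ℝ → ℝ}
    (hg : AnalyticOnNhd ℝ g (Set.Icc 0 1)) (hg1 : ∀ x ∈ Set.Icc (0:ℝ) 1, deriv g x ≠ 0)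
    (w : List (Fin 5)) {l s : ℝ} (hl : l ≠ 0)
    (hw : ∀ x ∈ Set.Icc (0:ℝ) 1, g (comp (fun i => p.fr i t) w x) = l * g x + s)
    {x : ℝ} (hx : x ∈ Set.Icc (0:ℝ) 1) :
    deriv (deriv g) x / deriv g x = deriv (deriv g) (comp (fun i => p.fr i t) w x)
      / deriv g (comp (fun i => p.fr i t) w x) * p.dr t x w + p.hr t x w := by
  have hmaps : ∀ y ∈ Set.Icc (0:ℝ) 1, comp (fun i => p.fr i t) w y ∈ Set.Icc (0:ℝ) 1 := fun y hy =>
    comp_maps (fun i x hx => p.fr_maps i ht0 ht hx.1 hx.2) w hy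
  have hRlt : ∀ y ∈ Set.Icc (0:ℝ) 1, |y| < p.R := fun y hy => by
    rw [abs_of_nonneg hy.1]; linarith [hy.2]
  have hd1 : ∀ y ∈ Set.Icc (0:ℝ) 1, HasDerivAt g (deriv g y) y := fun y hy =>
    (hg y hy).differentiableAt.hasDerivAt
  have hd2 : ∀ y ∈ Set.Icc (0:ℝ) 1, HasDerivAt (deriv g) (deriv (deriv g) y) y := fun y hy =>
    (hg y hy).deriv.differentiableAt.hasDerivAt
  have e1 : ∀ y ∈ Set.Icc (0:ℝ) 1,
      deriv g (comp (fun i => p.fr i t) w y) * p.dr t y w - l * deriv g y = 0 := by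
    intro y hy
    have h1 : HasDerivAt (fun y => g (comp (fun i => p.fr i t) w y) - l * g y - s)
        (deriv g (comp (fun i => p.fr i t) w y) * p.dr t y w - l * deriv g y) y :=
      (((hd1 _ (hmaps y hy)).comp y (p.D_real ht0 ht (p.abs_le_R hy) w).1).sub
        ((hd1 y hy).const_mul l)).sub_const s
    exact zero_on (fun z hz => by rw [hw z hz]; ring) hy h1
  have e2 : (deriv (deriv g) (comp (fun i => p.fr i t) w x) * p.dr t x w) * p.dr t x w
      + deriv g (comp (fun i => p.fr i t) w x) * (p.dr t x w * p.hr t x w)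
      - l * deriv (deriv g) x = 0 := by
    have h1 := (((hd2 _ (hmaps x hx)).comp x (p.D_real ht0 ht (p.abs_le_R hx) w).1).mul
      (p.H_real ht0 ht (hRlt x hx) w).1).sub ((hd2 x hx).const_mul l)
    exact zero_on (φ := fun y => deriv g (comp (fun i => p.fr i t) w y) * p.dr t y w - l * deriv g y)
      e1 hx h1
  have e3 := e1 x hx
  have n1 := hg1 x hx
  have n2 := hg1 _ (hmaps x hx)
  have n3 := p.dr_ne ht0 ht (p.abs_le_R hx) w
  have e4 : l = deriv g (comp (fun i => p.fr i t) w x) * p.dr t x w / deriv g x := by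
    field_simp; linarith
  rw [e4] at e2
  have n4 : p.dr t x w * deriv g (comp (fun i => p.fr i t) w x) ≠ 0 := mul_ne_zero n3 n2
  field_simp at e2 ⊢
  have : p.dr t x w * (deriv (deriv g) x * deriv g (comp (fun i => p.fr i t) w x)
      - deriv g x * (p.dr t x w * deriv (deriv g) (comp (fun i => p.fr i t) w x)
        + deriv g (comp (fun i => p.fr i t) w x) * p.hr t x w)) = 0 := by
    linear_combination (-1) * e2
  have h5 := (mul_eq_zero.1 this).resolve_left n3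
  linear_combination h5

theorem pw_conj {f : Fin 5 → ℝ → ℝ} (hf : ∀ i, ∀ x ∈ Set.Icc (0:ℝ) 1, f i x ∈ Set.Icc (0:ℝ) 1)
    {g : ℝ → ℝ} {u : List (Fin 5)} {l s : ℝ}
    (hu : ∀ x ∈ Set.Icc (0:ℝ) 1, g (comp f u x) = l * g x + s) (K : ℕ) :
    ∃ s' : ℝ, ∀ x ∈ Set.Icc (0:ℝ) 1, g (comp f (pw u K) x) = l^K * g x + s' := by
  induction K with
  | zero => exact ⟨0, fun x _ => by simp [pw, comp]⟩
  | succ K ih =>
    obtain ⟨s', hs'⟩ := ih
    refine ⟨l * s' + s, fun x hx => ?_⟩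
    rw [pw, comp_append, hu _ (comp_maps hf _ hx), hs' x hx, pow_succ]; ring

/-- a linearising map has nonlinearity `HH u` at `0` -/
theorem HH_eq (hR1 : 1 < p.R) (ht0 : 0 ≤ t) (ht : t ≤ 1/4) {g : ℝ → ℝ}
    (hg : AnalyticOnNhd ℝ g (Set.Icc 0 1)) (hg1 : ∀ x ∈ Set.Icc (0:ℝ) 1, deriv g x ≠ 0)
    {u : List (Fin 5)} (hu : u ≠ []) {l s : ℝ} (hl : l ≠ 0)
    (hw : ∀ x ∈ Set.Icc (0:ℝ) 1, g (comp (fun i => p.fr i t) u x) = l * g x + s) :
    p.HH u t = ((deriv (deriv g) 0 / deriv g 0 : ℝ) : ℂ) := by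
  have hf : ∀ i, ∀ x ∈ Set.Icc (0:ℝ) 1, (fun i => p.fr i t) i x ∈ Set.Icc (0:ℝ) 1 :=
    fun i x hx => p.fr_maps i ht0 ht hx.1 hx.2
  have h01 : (0:ℝ) ∈ Set.Icc (0:ℝ) 1 := ⟨le_rfl, zero_le_one⟩
  have hcont : ContinuousOn (fun x => deriv (deriv g) x / deriv g x) (Set.Icc 0 1) := by
    intro x hx
    exact (((hg x hx).deriv.deriv.continuousAt).div (hg x hx).deriv.continuousAt (hg1 x hx)).continuousWithinAt
  obtain ⟨B, hB⟩ := isCompact_Icc.exists_bound_of_continuousOn hcont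
  have hB0 : 0 ≤ B := (norm_nonneg _).trans (hB 0 h01)
  have h0R : |(0:ℝ)| < p.R := by rw [abs_zero]; exact p.Rpos
  have hlim : Tendsto (fun K => p.hr t 0 (pw u K)) atTop (𝓝 (deriv (deriv g) 0 / deriv g 0)) := by
    rw [tendsto_iff_norm_sub_tendsto_zero]
    have hz : Tendsto (fun K : ℕ => B * (1/2:ℝ)^K) atTop (𝓝 0) := by
      have := (tendsto_pow_atTop_nhds_zero_of_lt_one (r := (1/2:ℝ)) (by norm_num) (by norm_num)).const_mul B
      simpa using this
    refine squeeze_zero (fun _ => norm_nonneg _) (fun K => ?_) hz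
    obtain ⟨s', hs'⟩ := pw_conj hf hw K
    have h1 := p.nonlin hR1 ht0 ht hg hg1 (pw u K) (pow_ne_zero K hl) hs' h01
    have h2 : p.hr t 0 (pw u K) - deriv (deriv g) 0 / deriv g 0
        = - (deriv (deriv g) (comp (fun i => p.fr i t) (pw u K) 0)
      / deriv g (comp (fun i => p.fr i t) (pw u K) 0) * p.dr t 0 (pw u K)) := by
      rw [h1]; ring
    rw [h2, norm_neg, norm_mul]
    apply mul_le_mul (hB _ (comp_maps hf _ h01)) _ (norm_nonneg _) hB0
    have h3 := (p.D_real ht0 ht (x := 0) (by rw [abs_zero]; exact p.Rpos.le) (pw u K)).2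
    have h4 := p.D_bound (nt ht0 ht) (x := ((0:ℝ):ℂ)) (by simp [p.Rpos.le]) (pw u K)
    rw [← h3, Complex.norm_real] at h4
    refine h4.trans ?_
    apply pow_le_pow_of_le_one (by norm_num) (by norm_num)
    rw [pw_length]
    exact Nat.le_mul_of_pos_right K (List.length_pos_iff.2 hu)
  have h5 := p.HH_tendsto hu (nt ht0 ht)
  have h6 : (fun K => p.H (t:ℂ) 0 (pw u K)) = fun K => ((p.hr t 0 (pw u K) : ℝ) : ℂ) := by
    funext K
    have := (p.H_real ht0 ht h0R (pw u K)).2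
    rw [this]; simp
  rw [h6] at h5
  exact tendsto_nhds_unique h5 ((Complex.continuous_ofReal.tendsto _).comp hlim)

theorem pw_eqOn {f : Fin 5 → ℝ → ℝ} (hf : ∀ i, ∀ x ∈ Set.Icc (0:ℝ) 1, f i x ∈ Set.Icc (0:ℝ) 1)
    {u v : List (Fin 5)} (huv : Set.EqOn (comp f u) (comp f v) (Set.Icc 0 1)) (K : ℕ) :
    Set.EqOn (comp f (pw u K)) (comp f (pw v K)) (Set.Icc 0 1) := by
  induction K with
  | zero => exact fun x _ => rfl
  | succ K ih =>
    intro x hx
    rw [pw, pw, comp_append, comp_append, ih hx]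
    exact huv (comp_maps hf _ hx)

theorem HH_of_eqOn (hR1 : 1 < p.R) (ht0 : 0 ≤ t) (ht : t ≤ 1/4) {u v : List (Fin 5)}
    (hu : u ≠ []) (hv : v ≠ [])
    (huv : Set.EqOn (comp (fun i => p.fr i t) u) (comp (fun i => p.fr i t) v) (Set.Icc 0 1)) :
    p.HH u t = p.HH v t := by
  have hf : ∀ i, ∀ x ∈ Set.Icc (0:ℝ) 1, (fun i => p.fr i t) i x ∈ Set.Icc (0:ℝ) 1 :=
    fun i x hx => p.fr_maps i ht0 ht hx.1 hx.2
  have h01 : (0:ℝ) ∈ Set.Icc (0:ℝ) 1 := ⟨le_rfl, zero_le_one⟩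
  have h0R : |(0:ℝ)| < p.R := by rw [abs_zero]; exact p.Rpos
  have hRlt : ∀ y ∈ Set.Icc (0:ℝ) 1, |y| < p.R := fun y hy => by
    rw [abs_of_nonneg hy.1]; linarith [hy.2]
  have key : ∀ a b : List (Fin 5),
      Set.EqOn (comp (fun i => p.fr i t) a) (comp (fun i => p.fr i t) b) (Set.Icc 0 1) →
      p.hr t 0 a = p.hr t 0 b := by
    intro a b hab
    have e1 : ∀ y ∈ Set.Icc (0:ℝ) 1, p.dr t y a - p.dr t y b = 0 := fun y hy =>
      zero_on (fun z hz => sub_eq_zero.2 (hab hz)) hy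
        ((p.D_real ht0 ht (p.abs_le_R hy) a).1.sub (p.D_real ht0 ht (p.abs_le_R hy) b).1)
    have e2 := zero_on e1 h01 ((p.H_real ht0 ht h0R a).1.sub (p.H_real ht0 ht h0R b).1)
    have e3 := sub_eq_zero.1 (e1 0 h01)
    rw [e3, ← mul_sub] at e2
    exact sub_eq_zero.1 ((mul_eq_zero.1 e2).resolve_left (p.dr_ne ht0 ht (p.abs_le_R h01) b))
  have h5 := p.HH_tendsto hu (nt ht0 ht)
  have h5' := p.HH_tendsto hv (nt ht0 ht)
  have h6 : (fun K => p.H (t:ℂ) 0 (pw u K)) = fun K => p.H (t:ℂ) 0 (pw v K) := by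
    funext K
    have a1 := (p.H_real ht0 ht h0R (pw u K)).2
    have a2 := (p.H_real ht0 ht h0R (pw v K)).2
    rw [Complex.ofReal_zero] at a1 a2
    rw [← a1, ← a2, key _ _ (pw_eqOn hf huv K)]
  rw [h6] at h5
  exact tendsto_nhds_unique h5 h5'

end Par

/-- distinct words become distinct words of equal length -/
theorem words {N : ℕ} {u v : List (Fin N)} (a b : Fin N) (hab : a ≠ b) (huv : u ≠ v) :
    ∃ s : Fin N, u ++ s :: v ≠ v ++ s :: u := by
  by_contra hcon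
  push Not at hcon
  have ha := hcon a
  have hb := hcon b
  rcases lt_trichotomy u.length v.length with hlt | heq | hgt
  · have h1 : (u ++ a :: v)[u.length]? = (v ++ a :: u)[u.length]? := by rw [ha]
    have h2 : (u ++ b :: v)[u.length]? = (v ++ b :: u)[u.length]? := by rw [hb]
    rw [List.getElem?_append_right le_rfl, List.getElem?_append_left hlt] at h1 h2
    simp only [Nat.sub_self, List.getElem?_cons_zero] at h1 h2
    rw [← h2] at h1
    exact hab (Option.some.inj h1)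
  · exact huv (List.append_inj_left ha heq)
  · have h1 : (v ++ a :: u)[v.length]? = (u ++ a :: v)[v.length]? := by rw [ha]
    have h2 : (v ++ b :: u)[v.length]? = (u ++ b :: v)[v.length]? := by rw [hb]
    rw [List.getElem?_append_right le_rfl, List.getElem?_append_left hgt] at h1 h2
    simp only [Nat.sub_self, List.getElem?_cons_zero] at h1 h2
    rw [← h2] at h1
    exact hab (Option.some.inj h1)

end Pool.Agent.X66.IFS
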