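import Pool.Agent.X66.IFS.S

set_option autoImplicit false

namespace Pool.Agent.X66.IFS
open Filter Topology Metric

def fac (j : ℕ) : ℕ := (j+2).factorial

theorem fac_strict : StrictMono fac := by
  intro a b h
  exact (Nat.factorial_lt (by omega)).2 (by omega)

theorem fac_succ (j : ℕ) : fac (j+1) = (j+3) * fac j := Nat.factorial_succ (j+2)

theorem fac_pos (j : ℕ) : 0 < fac j := Nat.factorial_pos _

open Classical in
/-- indicator of the factorials `(j+2)!` with `j` of the given parity -/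
noncomputable def sI (ρ n : ℕ) : ℤ := if ∃ j, j % 2 = ρ ∧ n = fac j then 1 else 0

theorem sI_fac (ρ j : ℕ) : sI ρ (fac j) = if j % 2 = ρ then 1 else 0 := by
  classical
  unfold sI
  by_cases h : j % 2 = ρ
  · rw [if_pos ⟨j, h, rfl⟩, if_pos h]
  · rw [if_neg, if_neg h]
    rintro ⟨i, hi, he⟩
    exact h (fac_strict.injective he ▸ hi)

theorem sI_gap (ρ j n : ℕ) (h1 : fac j < n) (h2 : n < fac (j+1)) : sI ρ n = 0 := by
  classical
  unfold sI
  rw [if_neg]
  rintro ⟨i, _, rfl⟩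
  have := fac_strict.lt_iff_lt.1 h1
  have := fac_strict.lt_iff_lt.1 h2
  omega

theorem sI_gap2 (j n : ℕ) (h1 : fac j < n) (h2 : n < fac (j+2)) : sI (j % 2) n = 0 := by
  classical
  unfold sI
  rw [if_neg]
  rintro ⟨i, hi, rfl⟩
  have := fac_strict.lt_iff_lt.1 h1
  have := fac_strict.lt_iff_lt.1 h2
  omega

theorem sI_cases (ρ n : ℕ) : sI ρ n = 0 ∨ sI ρ n = 1 := by
  classical
  unfold sI
  split_ifs <;> simp

theorem exists_j {n K : ℕ} (h : fac K < n) : ∃ j, K ≤ j ∧ fac j < n ∧ n ≤ fac (j+1) := by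
  have hex : ∃ k, n ≤ fac k := ⟨n, by
    have : n ≤ fac n := fac_strict.le_apply
    exact this⟩
  classical
  have h1 := Nat.find_spec hex
  have hpos : K < Nat.find hex := by
    by_contra hc
    have := fac_strict.monotone (not_lt.1 hc)
    omega
  refine ⟨Nat.find hex - 1, by omega, ?_, ?_⟩
  · have := Nat.find_min hex (m := Nat.find hex - 1) (by omega)
    omega
  · have e : Nat.find hex - 1 + 1 = Nat.find hex := by omega
    rw [e]; exact h1

noncomputable def sg (ρ : ℕ) : ℝ := ∑' n, (sI ρ n : ℝ) * (1/4)^n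

theorem sI_abs (ρ n : ℕ) : |(sI ρ n : ℝ)| ≤ 1 := by
  rcases sI_cases ρ n with h | h <;> simp [h]

theorem sg_summable (ρ : ℕ) : Summable fun n => (sI ρ n : ℝ) * (1/4:ℝ)^n := by
  apply Summable.of_norm_bounded (g := fun n : ℕ => (1/4:ℝ)^n)
    (summable_geometric_of_lt_one (by norm_num) (by norm_num))
  intro n
  rw [norm_mul, Real.norm_eq_abs, Real.norm_of_nonneg (by positivity)]
  have := sI_abs ρ n
  have : (0:ℝ) < (1/4)^n := by positivity
  nlinarith

def Iseq (a : ℤ) (y : ℕ → ℤ) : ℕ → ℤ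
  | 0 => a
  | n+1 => 4 * Iseq a y n + 4 * y n

/-- `1, σ₀, σ₁` are linearly independent over the integers -/
theorem indep (a q r : ℤ) (h : (a : ℝ) + q * sg 0 + r * sg 1 = 0) : a = 0 ∧ q = 0 ∧ r = 0 := by
  set y : ℕ → ℤ := fun n => q * sI 0 n + r * sI 1 n with hy
  set C : ℝ := |(q:ℝ)| + |(r:ℝ)| with hC
  have hC0 : 0 ≤ C := by positivity
  have hyC : ∀ n, |(y n : ℝ)| ≤ C := by
    intro n
    simp only [hy, hC]; push_cast
    refine (abs_add_le _ _).trans (add_le_add ?_ ?_)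
    · rw [abs_mul]
      have := sI_abs 0 n; have := abs_nonneg (q:ℝ); nlinarith
    · rw [abs_mul]
      have := sI_abs 1 n; have := abs_nonneg (r:ℝ); nlinarith
  have hys : HasSum (fun n => (y n : ℝ) * (1/4:ℝ)^n) (q * sg 0 + r * sg 1) := by
    have := ((sg_summable 0).hasSum.mul_left (q:ℝ)).add ((sg_summable 1).hasSum.mul_left (r:ℝ))
    have e : (fun n => (y n : ℝ) * (1/4:ℝ)^n) = fun b => (q:ℝ) * ((sI 0 b : ℝ) * (1 / 4) ^ b)
        + (r:ℝ) * ((sI 1 b : ℝ) * (1 / 4) ^ b) := by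
      funext n; simp only [hy]; push_cast; ring
    rw [e]; exact this
  set I : ℕ → ℤ := Iseq a y with hIdef
  have I0 : I 0 = a := rfl
  have I1 : ∀ N, I (N+1) = 4 * I N + 4 * y N := fun N => rfl
  have hI : ∀ N, (I N : ℝ) = 4^N * (a + ∑ n ∈ Finset.range N, (y n : ℝ) * (1/4:ℝ)^n) := by
    intro N
    induction N with
    | zero => simp [I0]
    | succ N ih =>
      rw [I1, Finset.sum_range_succ]; push_cast; rw [ih, pow_succ]
      have : (4:ℝ)^N * (1/4)^N = 1 := by rw [← mul_pow]; norm_num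
      linear_combination (-4 * (y N:ℝ)) * this
  have htail : ∀ N M, N ≤ M → (∀ n, N ≤ n → n < M → y n = 0) →
      |(I N : ℝ)| ≤ 4^N * (C * (4/3) * (1/4)^M) := by
    intro N M hNM hgap
    rw [hI N, abs_mul, abs_of_nonneg (by positivity : (0:ℝ) ≤ 4^N)]
    apply mul_le_mul_of_nonneg_left _ (by positivity)
    have e1 : ∑ n ∈ Finset.range N, (y n : ℝ) * (1/4:ℝ)^n = ∑ n ∈ Finset.range M, (y n : ℝ) * (1/4:ℝ)^n := by
      apply Finset.sum_subset (Finset.range_mono hNM)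
      intro n hn hn'
      simp only [Finset.mem_range, not_lt] at hn hn'
      rw [hgap n hn' hn]; simp
    rw [e1]
    have e2 := hys.summable.sum_add_tsum_nat_add M
    rw [hys.tsum_eq] at e2
    have e3 : (a:ℝ) + ∑ n ∈ Finset.range M, (y n : ℝ) * (1/4:ℝ)^n = - ∑' n, (y (n+M) : ℝ) * (1/4:ℝ)^(n+M) := by
      linarith
    rw [e3, abs_neg]
    have h3 : HasSum (fun k : ℕ => C * (1/4:ℝ)^(k+M)) (C * (4/3) * (1/4)^M) := by
      have := (hasSum_geometric_of_lt_one (r := (1/4:ℝ)) (by norm_num) (by norm_num)).mul_left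
        (C * (1/4)^M)
      have e1 : (fun k : ℕ => C * (1/4:ℝ)^(k+M)) = fun i => C * (1 / 4) ^ M * (1 / 4) ^ i := by
        funext k; rw [pow_add]; ring
      have e2 : C * (4/3) * (1/4:ℝ)^M = C * (1 / 4) ^ M * (1 - 1 / 4)⁻¹ := by norm_num; ring
      rw [e1, e2]; exact this
    rw [← Real.norm_eq_abs]
    apply tsum_of_norm_bounded h3
    intro k
    rw [norm_mul, Real.norm_eq_abs, Real.norm_of_nonneg (by positivity)]
    exact mul_le_mul_of_nonneg_right (hyC _) (by positivity)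
  obtain ⟨J, hJ⟩ : ∃ J : ℕ, C * (4/3) < 4^J := by
    obtain ⟨J, hJ⟩ := pow_unbounded_of_one_lt (C * (4/3)) (by norm_num : (1:ℝ) < 4)
    exact ⟨J, hJ⟩
  have hygap : ∀ j n, fac j < n → n < fac (j+1) → y n = 0 := by
    intro j n h1 h2
    simp only [hy]; rw [sI_gap 0 j n h1 h2, sI_gap 1 j n h1 h2]; ring
  have hz : ∀ j, J ≤ j → I (fac j + 1) = 0 := by
    intro j hj
    have h1 := htail (fac j + 1) (fac (j+1)) (fac_strict (Nat.lt_succ_self j))
      (fun n h1 h2 => hygap j n (by omega) h2)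
    have h2 : (4:ℝ)^(fac j + 1) * (C * (4/3) * (1/4)^(fac (j+1))) < 1 := by
      have e : (1/4:ℝ)^(fac (j+1)) * 4^(fac (j+1)) = 1 := by rw [← mul_pow]; norm_num
      have h3 : (4:ℝ)^(fac j + 1) * (C * (4/3)) < 4^(fac (j+1)) := by
        calc (4:ℝ)^(fac j + 1) * (C * (4/3)) < 4^(fac j + 1) * 4^J := by
              apply mul_lt_mul_of_pos_left hJ (by positivity)
          _ = 4^(fac j + 1 + J) := (pow_add _ _ _).symm
          _ ≤ 4^(fac (j+1)) := by
              apply pow_le_pow_right₀ (by norm_num)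
              rw [fac_succ]
              have := fac_pos j
              nlinarith
      have h4 : (0:ℝ) < (1/4)^(fac (j+1)) := by positivity
      calc (4:ℝ)^(fac j + 1) * (C * (4/3) * (1/4)^(fac (j+1)))
          = ((4:ℝ)^(fac j + 1) * (C * (4/3))) * (1/4)^(fac (j+1)) := by ring
        _ < 4^(fac (j+1)) * (1/4)^(fac (j+1)) := mul_lt_mul_of_pos_right h3 h4
        _ = 1 := by rw [mul_comm]; exact e
    have h5 : |(I (fac j + 1) : ℝ)| < 1 := lt_of_le_of_lt h1 h2
    have h6 : |I (fac j + 1)| < 1 := by exact_mod_cast h5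
    exact Int.abs_lt_one_iff.1 h6
  have hy0 : ∀ j, J ≤ j → y (fac (j+1)) = 0 := by
    intro j hj
    have h1 : ∀ n, fac j + 1 ≤ n → n ≤ fac (j+1) → I n = 0 := by
      intro n hn
      induction n, hn using Nat.le_induction with
      | base => intro _; exact hz j hj
      | succ n hn ih =>
        intro h
        rw [I1, ih (by omega), hygap j n (by omega) (by omega)]; ring
    have h2 := h1 (fac (j+1)) (fac_strict (Nat.lt_succ_self j)) le_rfl
    have h3 := hz (j+1) (by omega)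
    rw [I1, h2] at h3
    omega
  have hq : q = 0 := by
    have h1 := hy0 (2*J+1) (by omega)
    simp only [hy] at h1
    rw [sI_fac, sI_fac, if_pos (by omega), if_neg (by omega)] at h1
    omega
  have hr : r = 0 := by
    have h1 := hy0 (2*J) (by omega)
    simp only [hy] at h1
    rw [sI_fac, sI_fac, if_neg (by omega), if_pos (by omega)] at h1
    omega
  refine ⟨?_, hq, hr⟩
  rw [hq, hr] at h
  simpa using h

/-! digit maps -/
def dA : Fin 5 → ℕ := ![0, 1, 2, 2, 2]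
def dB : Fin 5 → ℕ := ![0, 0, 0, 1, 0]
def dC : Fin 5 → ℕ := ![0, 0, 0, 0, 1]

theorem list_eq {u v : List (Fin 5)} (hA : u.map dA = v.map dA) (hB : u.map dB = v.map dB)
    (hC : u.map dC = v.map dC) : u = v := by
  induction u generalizing v with
  | nil => cases v with
    | nil => rfl
    | cons j v => simp at hA
  | cons i u ih => cases v with
    | nil => simp at hA
    | cons j v =>
      simp only [List.map_cons, List.cons.injEq] at hA hB hC
      rw [ih hA.2 hB.2 hC.2]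
      congr 1
      have h1 := hA.1; have h2 := hB.1; have h3 := hC.1
      revert h1 h2 h3
      fin_cases i <;> fin_cases j <;> simp [dA, dB, dC]

noncomputable def val (e : Fin 5 → ℕ) (w : List (Fin 5)) : ℂ :=
  (Nat.ofDigits 4 (w.map e) : ℕ) * 4 / 4^w.length

theorem val_cons (e : Fin 5 → ℕ) (i : Fin 5) (w : List (Fin 5)) :
    val e (i :: w) = val e w + (1/4)^w.length * e i := by
  unfold val
  rw [List.map_cons, Nat.ofDigits_cons, List.length_cons, pow_succ, one_div, inv_pow]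
  push_cast
  have : (4:ℂ)^w.length ≠ 0 := pow_ne_zero _ (by norm_num)
  field_simp
  ring

theorem val_nil (e : Fin 5 → ℕ) : val e [] = 0 := by simp [val]

/-- the distinguished choice of the sequences -/
noncomputable def ccF (δ : ℝ) (i : Fin 5) (n : ℕ) : ℝ :=
  if i = 3 then δ * sI 0 n * (1/4)^n else if i = 4 then δ * sI 1 n * (1/4)^n else 0

theorem ccF_eq (δ : ℝ) (i : Fin 5) (n : ℕ) :
    ccF δ i n = δ * ((dB i : ℝ) * (sI 0 n * (1/4)^n) + (dC i : ℝ) * (sI 1 n * (1/4)^n)) := by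
  unfold ccF
  fin_cases i <;> simp [dB, dC] <;> ring

theorem ccF_bd {δ : ℝ} (hδ : 0 < δ) (i : Fin 5) (n : ℕ) :
    0 ≤ ccF δ i n ∧ ccF δ i n ≤ δ * (1/4)^n := by
  have h4 : (0:ℝ) < (1/4)^n := by positivity
  have h5 : (0:ℝ) < δ * (1/4)^n := by positivity
  unfold ccF
  split_ifs
  · rcases sI_cases 0 n with h | h <;> rw [h] <;> simp <;> nlinarith
  · rcases sI_cases 1 n with h | h <;> rw [h] <;> simp <;> nlinarith
  · exact ⟨le_rfl, h5.le⟩

noncomputable def PF (δ R : ℝ) (hδ : 0 < δ) (hR : 1 ≤ R) (h : δ * R ≤ 1/64) : Par where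
  δ := δ
  R := R
  cc := ccF δ
  hδ := hδ
  hR := hR
  hδR := h
  c0 := fun i n => (ccF_bd hδ i n).1
  c1 := fun i n => (ccF_bd hδ i n).2

variable {δ R : ℝ} (hδ : 0 < δ) (hR : 1 ≤ R) (h : δ * R ≤ 1/64)

theorem av_dA (i : Fin 5) : av i = dA i := by fin_cases i <;> simp [av, dA]

include hδ hR h in
theorem L2_val (i : Fin 5) : deriv (deriv (L (ccF δ i))) 0 =
    2 * δ * (dB i * (sg 0 : ℝ) + dC i * (sg 1 : ℝ)) := by
  have h1 := L2_zero (c := ccF δ i) (fun n => (ccF_bd hδ i n).1) (fun n => (ccF_bd hδ i n).2)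
    (lt_of_lt_of_le one_pos hR) h
  have h2 : HasSum (fun n => 2 * ccF δ i n) (2 * (δ * ((dB i : ℝ) * sg 0 + (dC i : ℝ) * sg 1))) := by
    have := ((((sg_summable 0).hasSum.mul_left (dB i : ℝ)).add
      ((sg_summable 1).hasSum.mul_left (dC i : ℝ))).mul_left δ).mul_left 2
    have e : (fun n => 2 * ccF δ i n) = fun n => 2 * (δ * ((dB i : ℝ) * ((sI 0 n : ℝ) * (1 / 4) ^ n)
        + (dC i : ℝ) * ((sI 1 n : ℝ) * (1 / 4) ^ n))) := by
      funext n; rw [ccF_eq]
    rw [e]; exact this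
  have h3 := (Complex.continuous_ofReal.tendsto _).comp h2.tendsto_sum_nat
  have h4 : (Complex.ofReal ∘ fun n => ∑ i_1 ∈ Finset.range n, 2 * ccF δ i i_1)
      = fun n => ∑ k ∈ Finset.range n, 2 * (ccF δ i k : ℂ) := by
    funext n; simp [Function.comp]
  rw [h4] at h3
  rw [tendsto_nhds_unique h1 h3]
  push_cast; ring

theorem H_val (w : List (Fin 5)) : (PF δ R hδ hR h).H 0 0 w =
    2 * δ * (val dA w + (sg 0 : ℝ) / 4 * val dB w + (sg 1 : ℝ) / 4 * val dC w) := by
  induction w with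
  | nil => simp [Par.H, val_nil]
  | cons i w ih =>
    rw [Par.H_zero_cons, ih, Par.ν_zero, val_cons, val_cons, val_cons]
    have h1 : deriv (deriv (L ((PF δ R hδ hR h).cc i))) 0 =
      2 * δ * (dB i * (sg 0 : ℝ) + dC i * (sg 1 : ℝ)) := L2_val hδ hR h i
    rw [h1, av_dA]
    have h2 : ((PF δ R hδ hR h).δ : ℂ) = δ := rfl
    rw [h2]; push_cast; ring

theorem arith (u v : List (Fin 5)) (hl : u.length = v.length) (hne : u ≠ v) :
    (PF δ R hδ hR h).H 0 0 u ≠ (PF δ R hδ hR h).H 0 0 v := by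
  intro he
  apply hne
  rw [H_val, H_val] at he
  have hδ2 : (2 * δ : ℂ) ≠ 0 := by
    have : (δ:ℂ) ≠ 0 := by exact_mod_cast hδ.ne'
    simpa using this
  have he2 := mul_left_cancel₀ hδ2 he
  unfold val at he2
  rw [← hl] at he2
  have hdig : ∀ e : Fin 5 → ℕ, (∀ i, e i < 4) → Nat.ofDigits 4 (u.map e) = Nat.ofDigits 4 (v.map e) →
      u.map e = v.map e := by
    intro e he h'
    apply Nat.ofDigits_inj_of_len_eq (by norm_num : 1 < 4) (by simp [← hl]) _ _ h'
    · intro l hl; obtain ⟨i, _, rfl⟩ := List.mem_map.1 hl; exact he i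
    · intro l hl; obtain ⟨i, _, rfl⟩ := List.mem_map.1 hl; exact he i
  have hA := hdig dA (by intro i; fin_cases i <;> simp [dA])
  have hB := hdig dB (by intro i; fin_cases i <;> simp [dB])
  have hC := hdig dC (by intro i; fin_cases i <;> simp [dC])
  generalize Nat.ofDigits 4 (u.map dA) = A₁ at he2 hA
  generalize Nat.ofDigits 4 (v.map dA) = A₂ at he2 hA
  generalize Nat.ofDigits 4 (u.map dB) = B₁ at he2 hB
  generalize Nat.ofDigits 4 (v.map dB) = B₂ at he2 hB
  generalize Nat.ofDigits 4 (u.map dC) = C₁ at he2 hC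
  generalize Nat.ofDigits 4 (v.map dC) = C₂ at he2 hC
  have h4 : (4:ℂ)^u.length ≠ 0 := pow_ne_zero _ (by norm_num)
  field_simp at he2
  have key : (((4 * (A₁:ℤ) - 4 * (A₂:ℤ) : ℤ) : ℝ)
      + (((B₁:ℤ) - (B₂:ℤ) : ℤ) : ℝ) * sg 0 + (((C₁:ℤ) - (C₂:ℤ) : ℤ) : ℝ) * sg 1) = 0 := by
    have : (((((4 * (A₁:ℤ) - 4 * (A₂:ℤ) : ℤ) : ℝ)
      + (((B₁:ℤ) - (B₂:ℤ) : ℤ) : ℝ) * sg 0 + (((C₁:ℤ) - (C₂:ℤ) : ℤ) : ℝ) * sg 1 : ℝ) : ℂ)) = 0 := by
      push_cast
      linear_combination he2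
    exact_mod_cast this
  obtain ⟨ha, hb, hc⟩ := indep _ _ _ key
  exact list_eq (hA (by omega)) (hB (by omega)) (hC (by omega))

end Pool.Agent.X66.IFS
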