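import Pool.Agent.X66.IFS.A

set_option autoImplicit false

namespace Pool.Agent.X66.IFS
open Filter Topology Metric

/-- composition along a word -/
def comp {N : ℕ} (f : Fin N → ℝ → ℝ) : List (Fin N) → ℝ → ℝ
  | [] => id
  | i :: w => f i ∘ comp f w

theorem comp_append {N : ℕ} (f : Fin N → ℝ → ℝ) (u v : List (Fin N)) (x : ℝ) :
    comp f (u ++ v) x = comp f u (comp f v x) := by
  induction u with
  | nil => rfl
  | cons i u ih => simp only [List.cons_append, comp, Function.comp, ih]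

theorem comp_maps {N : ℕ} {f : Fin N → ℝ → ℝ}
    (hf : ∀ i, ∀ x ∈ Set.Icc (0:ℝ) 1, f i x ∈ Set.Icc (0:ℝ) 1) (w : List (Fin N)) {x : ℝ}
    (hx : x ∈ Set.Icc (0:ℝ) 1) : comp f w x ∈ Set.Icc (0:ℝ) 1 := by
  induction w with
  | nil => exact hx
  | cons i w ih => exact hf i _ ih

theorem Par.Z_comp (p : Par) (t x : ℝ) (w : List (Fin 5)) :
    p.Z t x w = ((comp (fun i => p.fr i t) w x : ℝ) : ℂ) := by
  induction w with
  | nil => rfl
  | cons i w ih => rw [Par.Z, ih, p.φ_ofReal]; rfl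

theorem L_zero_seq (z : ℂ) : L (fun _ => (0:ℝ)) z = z := by simp [L]

theorem ccF_small (δ : ℝ) (i : Fin 5) (hi : i ≠ 3) (hi' : i ≠ 4) : ccF δ i = fun _ => 0 := by
  funext n; simp [ccF, hi, hi']

variable {δ R : ℝ} (hδ : 0 < δ) (hR : 1 ≤ R) (h : δ * R ≤ 1/64)

theorem φ_small (i : Fin 5) (hi : i ≠ 3) (hi' : i ≠ 4) (t z : ℂ) :
    (PF δ R hδ hR h).φ i t z = (PF δ R hδ hR h).inn i t z := by
  rw [Par.φ]
  have : (PF δ R hδ hR h).cc i = fun _ => 0 := ccF_small δ i hi hi'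
  rw [this, L_zero_seq]

theorem φ0 (t z : ℂ) : (PF δ R hδ hR h).φ 0 t z = z / 4 := by
  rw [φ_small hδ hR h 0 (by decide) (by decide)]
  simp [Par.inn, av, ev]

theorem φ1 (t z : ℂ) : (PF δ R hδ hR h).φ 1 t z = (z + δ * z^2) / 4 := by
  rw [φ_small hδ hR h 1 (by decide) (by decide)]
  simp [Par.inn, av, ev, PF]

/-- the letter encoding the parity class -/
def lt (ρ : ℕ) : Fin 5 := if ρ = 0 then 3 else 4

theorem ccF_lt {ρ : ℕ} (hρ : ρ = 0 ∨ ρ = 1) (n : ℕ) :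
    ccF δ (lt ρ) n = δ * sI ρ n * (1/4)^n := by
  rcases hρ with rfl | rfl <;> simp [lt, ccF]

noncomputable def Uw (ρ : ℕ) : ℕ → List (Fin 5)
  | 0 => []
  | n+1 => (if sI ρ n = 0 then 0 else 1) :: Uw ρ n

theorem Uw_length (ρ n : ℕ) : (Uw ρ n).length = n := by
  induction n with
  | zero => rfl
  | succ n ih => simp [Uw, ih]

theorem Z_Uw {ρ : ℕ} (hρ : ρ = 0 ∨ ρ = 1) (t x : ℂ) (n : ℕ) (w : List (Fin 5)) :
    (PF δ R hδ hR h).Z t x (Uw ρ n ++ w)
      = (1/4)^n * P (ccF δ (lt ρ)) n ((PF δ R hδ hR h).Z t x w) := by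
  induction n with
  | zero => simp [Uw, P]
  | succ n ih =>
    rw [Uw, List.cons_append, Par.Z, ih, P, ccF_lt hρ]
    rcases sI_cases ρ n with h0 | h0
    · rw [if_pos h0, φ0, h0]; push_cast; ring
    · rw [if_neg (by rw [h0]; norm_num), φ1, h0]; push_cast; ring

theorem Z_rep (t x : ℂ) (n : ℕ) (w : List (Fin 5)) :
    (PF δ R hδ hR h).Z t x (List.replicate n 0 ++ w) = (1/4)^n * (PF δ R hδ hR h).Z t x w := by
  induction n with
  | zero => simp
  | succ n ih => rw [List.replicate_succ, List.cons_append, Par.Z, ih, φ0]; ring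

theorem close {ρ : ℕ} (hρ : ρ = 0 ∨ ρ = 1) {t x : ℝ} (ht0 : 0 ≤ t) (ht : t ≤ 1/4)
    (hx : x ∈ Set.Icc (0:ℝ) 1) (n M : ℕ) (hnM : n ≤ M)
    (hgap : ∀ k, n ≤ k → k < M → sI ρ k = 0) :
    |comp (fun i => (PF δ R hδ hR h).fr i t) (List.replicate n 0 ++ [lt ρ]) x
      - comp (fun i => (PF δ R hδ hR h).fr i t) (Uw ρ n ++ [2]) x| ≤ (1/4)^n * (1/4)^M := by
  have h1 : |comp (fun i => (PF δ R hδ hR h).fr i t) (List.replicate n 0 ++ [lt ρ]) x
      - comp (fun i => (PF δ R hδ hR h).fr i t) (Uw ρ n ++ [2]) x|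
      = ‖(PF δ R hδ hR h).Z t x (List.replicate n 0 ++ [lt ρ])
        - (PF δ R hδ hR h).Z t x (Uw ρ n ++ [2])‖ := by
    rw [Par.Z_comp, Par.Z_comp, ← Complex.ofReal_sub, Complex.norm_real, Real.norm_eq_abs]
  rw [h1, Z_rep, Z_Uw hδ hR h hρ, Par.Z, Par.Z, Par.Z, φ_small hδ hR h 2 (by decide) (by decide)]
  have hinn : (PF δ R hδ hR h).inn (lt ρ) (t:ℂ) x = (PF δ R hδ hR h).inn 2 (t:ℂ) x := by
    rcases hρ with rfl | rfl <;> simp [lt, Par.inn, av, ev]
  have hφ : (PF δ R hδ hR h).φ (lt ρ) (t:ℂ) x = L (ccF δ (lt ρ)) ((PF δ R hδ hR h).inn 2 (t:ℂ) x) := by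
    rw [Par.φ, hinn]; rfl
  rw [hφ, ← mul_sub, norm_mul]
  have h14 : ‖(1/4:ℂ)^n‖ = (1/4)^n := by rw [norm_pow]; norm_num
  rw [h14]
  apply mul_le_mul_of_nonneg_left _ (by positivity)
  have hδ64 : δ * 1 ≤ 1/64 := (PF δ R hδ hR h).δ64.trans' (by simp [PF])
  have hb := (PF δ R hδ hR h).inn_bound (r := 1) le_rfl hδ64 2 (t := t) (z := x)
      (by rw [Complex.norm_real, Real.norm_of_nonneg ht0]; exact ht)
      (by rw [Complex.norm_real, Real.norm_of_nonneg hx.1]; exact hx.2)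
  have h3 := L_sub_P (c := ccF δ (lt ρ)) (fun n => (ccF_bd hδ _ n).1) (fun n => (ccF_bd hδ _ n).2)
    (r := 1) zero_le_one hδ64 (z := (PF δ R hδ hR h).inn 2 (t:ℂ) x) (by linarith) n M hnM
    (fun k h1 h2 => by rw [ccF_lt hρ, hgap k h1 h2]; simp)
  refine h3.trans ?_
  have : (0:ℝ) < (1/4)^M := by positivity
  linarith

def ESC {N : ℕ} (f : Fin N → ℝ → ℝ) : Prop :=
  ∃ c : ℝ, 0 < c ∧ ∃ᶠ n in atTop, ∀ u v : List (Fin N), u.length = n → v.length = n → u ≠ v →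
    c ^ n ≤ sSup ((fun x => |comp f u x - comp f v x|) '' Set.Icc (0:ℝ) 1)

theorem not_ESC {t : ℝ} (ht0 : 0 ≤ t) (ht : t ≤ 1/4) :
    ¬ ESC (fun i => (PF δ R hδ hR h).fr i t) := by
  rintro ⟨c, hc, hfr⟩
  set c' := min c 1 with hc'
  have hc'0 : 0 < c' := lt_min hc one_pos
  have hc'1 : c' ≤ 1 := min_le_right _ _
  obtain ⟨K, hK⟩ : ∃ K : ℕ, (1/4:ℝ)^K < c'^2 :=
    exists_pow_lt_of_lt_one (by positivity) (by norm_num)
  obtain ⟨n, hP, hn⟩ := (hfr.and_eventually (eventually_ge_atTop (fac K + 2))).exists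
  obtain ⟨m, rfl⟩ : ∃ m, n = m + 1 := ⟨n - 1, by omega⟩
  obtain ⟨j, hKj, hj1, hj2⟩ := exists_j (n := m) (K := K) (by omega)
  have hρ : j % 2 = 0 ∨ j % 2 = 1 := Nat.mod_two_eq_zero_or_one j
  have hM : m ≤ fac (j+2) := hj2.trans (fac_strict (Nat.lt_succ_self (j+1))).le
  have hgap : ∀ k, m ≤ k → k < fac (j+2) → sI (j%2) k = 0 := fun k h1 h2 =>
    sI_gap2 j k (by omega) h2
  have hne : List.replicate m (0 : Fin 5) ++ [lt (j%2)] ≠ Uw (j%2) m ++ [2] := by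
    intro he
    have := List.append_inj_right he (by simp [Uw_length])
    simp only [List.cons.injEq, and_true] at this
    rcases hρ with h0 | h0 <;> rw [h0] at this <;> revert this <;> decide
  have h1 := hP _ _ (by simp) (by simp [Uw_length]) hne
  have h2 : sSup ((fun x => |comp (fun i => (PF δ R hδ hR h).fr i t) (List.replicate m 0 ++ [lt (j%2)]) x
      - comp (fun i => (PF δ R hδ hR h).fr i t) (Uw (j%2) m ++ [2]) x|) '' Set.Icc (0:ℝ) 1)
      ≤ (1/4)^m * (1/4)^(fac (j+2)) := by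
    apply csSup_le
    · exact ⟨_, 0, ⟨le_rfl, zero_le_one⟩, rfl⟩
    · rintro _ ⟨x, hx, rfl⟩
      exact close hδ hR h hρ ht0 ht hx m _ hM hgap
  have h3 : (1/4:ℝ)^m * (1/4)^(fac (j+2)) < c'^(m+1) := by
    have hm1 : 1 ≤ m := by have := fac_pos j; omega
    have hle : K * m ≤ fac (j+2) := by
      have := fac_succ (j+1)
      rw [this]
      apply Nat.mul_le_mul (by omega) hj2
    calc (1/4:ℝ)^m * (1/4)^(fac (j+2)) ≤ (1/4)^1 * (1/4)^(K*m) := by
          apply mul_le_mul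
          · exact pow_le_pow_of_le_one (by norm_num) (by norm_num) hm1
          · exact pow_le_pow_of_le_one (by norm_num) (by norm_num) hle
          · positivity
          · positivity
      _ ≤ (1/4)^1 * (c'^2)^m := by
          apply mul_le_mul_of_nonneg_left _ (by positivity)
          rw [pow_mul]
          exact pow_le_pow_left₀ (by positivity) hK.le m
      _ = (1/4) * c'^(2*m) := by rw [← pow_mul, pow_one]
      _ ≤ (1/4) * c'^(m+1) := by
          apply mul_le_mul_of_nonneg_left _ (by positivity)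
          exact pow_le_pow_of_le_one hc'0.le hc'1 (by omega)
      _ < c'^(m+1) := by
          have : 0 < c'^(m+1) := by positivity
          linarith
  have h4 : c'^(m+1) ≤ c^(m+1) := pow_le_pow_left₀ hc'0.le (min_le_left _ _) _
  linarith

end Pool.Agent.X66.IFS
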