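import Mathlib

set_option autoImplicit false

namespace Pool.Agent.X66.IFS
open Filter Topology Metric

/-- iterated polynomial `P_{n+1} = P_n + c_n P_n^2` -/
noncomputable def P (c : ℕ → ℝ) : ℕ → ℂ → ℂ
  | 0, z => z
  | n+1, z => P c n z + c n * (P c n z)^2

noncomputable def Q (c : ℕ → ℝ) : ℕ → ℂ → ℂ
  | 0, _ => 1
  | n+1, z => Q c n z + c n * (2 * P c n z * Q c n z)

noncomputable def W (c : ℕ → ℝ) : ℕ → ℂ → ℂ
  | 0, _ => 0
  | n+1, z => W c n z + c n * (2 * (Q c n z * Q c n z + P c n z * W c n z))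

/-- the limit map -/
noncomputable def L (c : ℕ → ℝ) (z : ℂ) : ℂ := z + ∑' n, (c n : ℂ) * (P c n z)^2

theorem P_eq_sum (c : ℕ → ℝ) (n : ℕ) (z : ℂ) :
    P c n z = z + ∑ k ∈ Finset.range n, (c k : ℂ) * (P c k z)^2 := by
  induction n with
  | zero => simp [P]
  | succ n ih => rw [Finset.sum_range_succ, ← add_assoc, ← ih]; rfl

theorem hasDerivAt_P (c : ℕ → ℝ) (n : ℕ) (z : ℂ) : HasDerivAt (P c n) (Q c n z) z := by
  induction n with
  | zero => exact hasDerivAt_id z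
  | succ n ih =>
    have h := ih.add ((ih.pow 2).const_mul (c n : ℂ))
    refine (h.congr_deriv ?_ : HasDerivAt (P c (n+1)) _ z)
    rw [Q]; push_cast; ring

theorem hasDerivAt_Q (c : ℕ → ℝ) (n : ℕ) (z : ℂ) : HasDerivAt (Q c n) (W c n z) z := by
  induction n with
  | zero =>
    have : Q c 0 = fun _ => (1:ℂ) := by funext z; rfl
    rw [this]; simpa [W] using hasDerivAt_const z (1:ℂ)
  | succ n ih =>
    have h := ih.add ((((hasDerivAt_P c n z).const_mul (2:ℂ)).mul ih).const_mul (c n : ℂ))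
    refine (h.congr_deriv ?_ : HasDerivAt (Q c (n+1)) _ z)
    rw [W]; ring

theorem P_zero (c : ℕ → ℝ) (n : ℕ) : P c n 0 = 0 := by
  induction n with
  | zero => rfl
  | succ n ih => simp [P, ih]

theorem Q_zero (c : ℕ → ℝ) (n : ℕ) : Q c n 0 = 1 := by
  induction n with
  | zero => rfl
  | succ n ih => simp [Q, ih, P_zero]

theorem W_zero (c : ℕ → ℝ) (n : ℕ) : W c n 0 = ∑ k ∈ Finset.range n, 2 * (c k : ℂ) := by
  induction n with
  | zero => simp [W]
  | succ n ih => rw [Finset.sum_range_succ, ← ih]; simp [W, Q_zero, P_zero]; ring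

variable {c : ℕ → ℝ} {δ : ℝ}

theorem P_bound (hc0 : ∀ n, 0 ≤ c n) (hc : ∀ n, c n ≤ δ * (1/4)^n) {r : ℝ} (hr : 0 ≤ r)
    (hδr : δ * r ≤ 1/64) {z : ℂ} (hz : ‖z‖ ≤ r) (n : ℕ) : ‖P c n z‖ ≤ r * (2 - (1/4)^n) := by
  induction n with
  | zero => simp [P]; linarith
  | succ n ih =>
    have h4 : (0:ℝ) < (1/4)^n := by positivity
    have h41 : ((1:ℝ)/4)^n ≤ 1 := pow_le_one₀ (by norm_num) (by norm_num)
    have h1 : ‖P c n z‖ ≤ 2 * r := by nlinarith
    have h2 : ‖P c (n+1) z‖ ≤ ‖P c n z‖ + c n * ‖P c n z‖^2 := by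
      refine (norm_add_le _ _).trans ?_
      rw [norm_mul, norm_pow, Complex.norm_real, Real.norm_of_nonneg (hc0 n)]
    have h3 : c n * ‖P c n z‖^2 ≤ δ * (1/4)^n * (4 * r^2) := by
      have : ‖P c n z‖^2 ≤ 4 * r^2 := by nlinarith [norm_nonneg (P c n z)]
      calc c n * ‖P c n z‖^2 ≤ (δ * (1/4)^n) * ‖P c n z‖^2 := by
            apply mul_le_mul_of_nonneg_right (hc n) (by positivity)
        _ ≤ δ * (1/4)^n * (4 * r^2) := by
            apply mul_le_mul_of_nonneg_left this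
            exact (hc0 n).trans (hc n)
    have h5 : δ * (1/4)^n * (4 * r^2) ≤ r * (1/4)^n / 16 := by
      have : δ * (1/4)^n * (4 * r^2) = (δ * r) * (4 * r * (1/4)^n) := by ring
      rw [this]
      have h6 : 0 ≤ 4 * r * (1/4:ℝ)^n := by positivity
      nlinarith
    rw [pow_succ]
    nlinarith [mul_nonneg hr h4.le]

theorem P_bound2 (hc0 : ∀ n, 0 ≤ c n) (hc : ∀ n, c n ≤ δ * (1/4)^n) {r : ℝ} (hr : 0 ≤ r)
    (hδr : δ * r ≤ 1/64) {z : ℂ} (hz : ‖z‖ ≤ r) (n : ℕ) : ‖P c n z‖ ≤ 2 * r := by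
  have := P_bound hc0 hc hr hδr hz n
  have h4 : (0:ℝ) < (1/4)^n := by positivity
  nlinarith

theorem term_bound (hc0 : ∀ n, 0 ≤ c n) (hc : ∀ n, c n ≤ δ * (1/4)^n) {r : ℝ} (hr : 0 ≤ r)
    (hδr : δ * r ≤ 1/64) {z : ℂ} (hz : ‖z‖ ≤ r) (n : ℕ) :
    ‖(c n : ℂ) * (P c n z)^2‖ ≤ r / 16 * (1/4)^n := by
  have h1 := P_bound2 hc0 hc hr hδr hz n
  have h4 : (0:ℝ) < (1/4)^n := by positivity
  rw [norm_mul, norm_pow, Complex.norm_real, Real.norm_of_nonneg (hc0 n)]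
  have : ‖P c n z‖^2 ≤ 4 * r^2 := by nlinarith [norm_nonneg (P c n z)]
  calc c n * ‖P c n z‖^2 ≤ (δ * (1/4)^n) * ‖P c n z‖^2 := by
        apply mul_le_mul_of_nonneg_right (hc n) (by positivity)
    _ ≤ δ * (1/4)^n * (4 * r^2) := by
        apply mul_le_mul_of_nonneg_left this
        exact (hc0 n).trans (hc n)
    _ = (δ * r) * (4 * r * (1/4)^n) := by ring
    _ ≤ (1/64) * (4 * r * (1/4)^n) := by
        apply mul_le_mul_of_nonneg_right hδr (by positivity)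
    _ = r / 16 * (1/4)^n := by ring

theorem summ_geo (r : ℝ) : Summable fun n : ℕ => r / 16 * (1/4:ℝ)^n :=
  (summable_geometric_of_lt_one (by norm_num) (by norm_num)).mul_left _

theorem summ (hc0 : ∀ n, 0 ≤ c n) (hc : ∀ n, c n ≤ δ * (1/4)^n) {r : ℝ} (hr : 0 ≤ r)
    (hδr : δ * r ≤ 1/64) {z : ℂ} (hz : ‖z‖ ≤ r) :
    Summable fun n => (c n : ℂ) * (P c n z)^2 :=
  Summable.of_norm_bounded (summ_geo r) (term_bound hc0 hc hr hδr hz)

/-- tail estimate with a gap -/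
theorem L_sub_P (hc0 : ∀ n, 0 ≤ c n) (hc : ∀ n, c n ≤ δ * (1/4)^n) {r : ℝ} (hr : 0 ≤ r)
    (hδr : δ * r ≤ 1/64) {z : ℂ} (hz : ‖z‖ ≤ r) (n M : ℕ) (hnM : n ≤ M)
    (hgap : ∀ k, n ≤ k → k < M → c k = 0) :
    ‖L c z - P c n z‖ ≤ r / 12 * (1/4)^M := by
  have hs := summ hc0 hc hr hδr hz
  have h1 : P c n z = P c M z := by
    induction M, hnM using Nat.le_induction with
    | base => rfl
    | succ m hm ih =>
      rw [ih (fun k h1 h2 => hgap k h1 (by omega))]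
      simp [P, hgap m hm (by omega)]
  rw [h1, P_eq_sum c M z]
  have h2 : L c z - (z + ∑ k ∈ Finset.range M, (c k : ℂ) * (P c k z)^2)
      = ∑' k, (c (k+M) : ℂ) * (P c (k+M) z)^2 := by
    unfold L
    rw [← hs.sum_add_tsum_nat_add M]; ring
  rw [h2]
  have h3 : HasSum (fun k : ℕ => r / 16 * (1/4:ℝ)^(k+M)) (r/12 * (1/4)^M) := by
    have := (hasSum_geometric_of_lt_one (r := (1/4:ℝ)) (by norm_num) (by norm_num)).mul_left
      (r/16 * (1/4)^M)
    have e1 : (fun k : ℕ => r / 16 * (1/4:ℝ)^(k+M)) = fun i => r / 16 * (1 / 4) ^ M * (1 / 4) ^ i := by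
      funext k; rw [pow_add]; ring
    have e2 : r/12 * (1/4:ℝ)^M = r / 16 * (1 / 4) ^ M * (1 - 1 / 4)⁻¹ := by norm_num; ring
    rw [e1, e2]; exact this
  exact tsum_of_norm_bounded h3 (fun k => term_bound hc0 hc hr hδr hz (k+M))

theorem L_sub_id (hc0 : ∀ n, 0 ≤ c n) (hc : ∀ n, c n ≤ δ * (1/4)^n) {r : ℝ} (hr : 0 ≤ r)
    (hδr : δ * r ≤ 1/64) {z : ℂ} (hz : ‖z‖ ≤ r) : ‖L c z - z‖ ≤ r / 12 := by
  have := L_sub_P hc0 hc hr hδr hz 0 0 le_rfl (by intro k _ h; omega)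
  simpa [P] using this

theorem tendstoLU (hc0 : ∀ n, 0 ≤ c n) (hc : ∀ n, c n ≤ δ * (1/4)^n) {R : ℝ} (hR : 0 ≤ R)
    (hδR : δ * R ≤ 1/64) : TendstoLocallyUniformlyOn (P c) (L c) atTop (ball 0 R) := by
  apply TendstoUniformlyOn.tendstoLocallyUniformlyOn
  have h := tendstoUniformlyOn_tsum_nat (f := fun n (z:ℂ) => (c n : ℂ) * (P c n z)^2)
    (s := ball (0:ℂ) R) (summ_geo R)
    (fun n z hz => term_bound hc0 hc hR hδR (by simpa using (mem_ball_zero_iff.1 hz).le) n)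
  rw [Metric.tendstoUniformlyOn_iff] at h ⊢
  intro e he
  filter_upwards [h e he] with n hn z hz
  have := hn z hz
  rw [dist_eq_norm] at this ⊢
  convert this using 2
  rw [P_eq_sum c n z]; unfold L; ring

theorem L_diff (hc0 : ∀ n, 0 ≤ c n) (hc : ∀ n, c n ≤ δ * (1/4)^n) {R : ℝ} (hR : 0 ≤ R)
    (hδR : δ * R ≤ 1/64) : DifferentiableOn ℂ (L c) (ball 0 R) :=
  (tendstoLU hc0 hc hR hδR).differentiableOn
    (Eventually.of_forall fun n z _ => (hasDerivAt_P c n z).differentiableAt.differentiableWithinAt)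
    isOpen_ball

theorem L1_zero (hc0 : ∀ n, 0 ≤ c n) (hc : ∀ n, c n ≤ δ * (1/4)^n) {R : ℝ} (hR : 0 < R)
    (hδR : δ * R ≤ 1/64) : deriv (L c) 0 = 1 := by
  have h := (tendstoLU hc0 hc hR.le hδR).deriv
    (Eventually.of_forall fun n z _ => (hasDerivAt_P c n z).differentiableAt.differentiableWithinAt)
    isOpen_ball
  have h2 := h.tendsto_at (mem_ball_self hR)
  have h3 : (fun n => (deriv ∘ P c) n 0) = fun _ => (1:ℂ) := by
    funext n; simp only [Function.comp]; rw [(hasDerivAt_P c n 0).deriv, Q_zero]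
  rw [h3] at h2
  exact tendsto_nhds_unique h2 tendsto_const_nhds

theorem L2_zero (hc0 : ∀ n, 0 ≤ c n) (hc : ∀ n, c n ≤ δ * (1/4)^n) {R : ℝ} (hR : 0 < R)
    (hδR : δ * R ≤ 1/64) : Tendsto (fun n => ∑ k ∈ Finset.range n, 2 * (c k : ℂ)) atTop
      (𝓝 (deriv (deriv (L c)) 0)) := by
  have h := (tendstoLU hc0 hc hR.le hδR).deriv
    (Eventually.of_forall fun n z _ => (hasDerivAt_P c n z).differentiableAt.differentiableWithinAt)
    isOpen_ball
  have hd : ∀ n, deriv (P c n) = Q c n := fun n => funext fun z => (hasDerivAt_P c n z).deriv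
  have h' := h.deriv
    (Eventually.of_forall fun n z _ => by
      simp only [Function.comp]; rw [hd n]
      exact (hasDerivAt_Q c n z).differentiableAt.differentiableWithinAt)
    isOpen_ball
  have h2 := h'.tendsto_at (mem_ball_self hR)
  have h3 : (fun n => (deriv ∘ (deriv ∘ P c)) n 0) = fun n => ∑ k ∈ Finset.range n, 2 * (c k : ℂ) := by
    funext n; simp only [Function.comp]; rw [hd n, (hasDerivAt_Q c n 0).deriv, W_zero]
  rw [h3] at h2
  exact h2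

/-- derivative estimate -/
theorem L1_bound (hc0 : ∀ n, 0 ≤ c n) (hc : ∀ n, c n ≤ δ * (1/4)^n) {R : ℝ} (hR : 0 < R)
    (hδR : δ * R ≤ 1/64) {z : ℂ} (hz : ‖z‖ ≤ 65/128 * R) : ‖deriv (L c) z - 1‖ ≤ 1/5 := by
  have hd := L_diff hc0 hc hR.le hδR
  have hzR : z ∈ ball (0:ℂ) R := by rw [mem_ball_zero_iff]; linarith
  have h1 : deriv (L c) z - 1 = deriv (fun w => L c w - w) z := by
    exact (((hd.differentiableAt (isOpen_ball.mem_nhds hzR)).hasDerivAt.sub
      (hasDerivAt_id' z)).deriv).symm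
  rw [h1]
  have hs : 0 < 62/128 * R := by positivity
  have hsub : closedBall z (62/128 * R) ⊆ ball 0 R := by
    intro w hw
    rw [mem_closedBall, dist_eq_norm] at hw
    rw [mem_ball_zero_iff]
    have : ‖w‖ ≤ ‖w - z‖ + ‖z‖ := by
      have := norm_add_le (w - z) z; simpa using this
    linarith
  have h2 := Complex.norm_deriv_le_of_forall_mem_sphere_norm_le (f := fun w => L c w - w) (c := z)
    (R := 62/128 * R) (C := R/12) hs (by
      apply DifferentiableOn.diffContOnCl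
      rw [closure_ball z hs.ne']
      exact (hd.mono hsub).sub differentiableOn_id)
    (by
      intro w hw
      have := hsub (sphere_subset_closedBall hw)
      exact L_sub_id hc0 hc hR.le hδR (mem_ball_zero_iff.1 this).le)
  refine h2.trans ?_
  rw [div_le_iff₀ hs]
  nlinarith

/-- the real version -/
noncomputable def Pr (c : ℕ → ℝ) : ℕ → ℝ → ℝ
  | 0, z => z
  | n+1, z => Pr c n z + c n * (Pr c n z)^2

theorem P_ofReal (c : ℕ → ℝ) (n : ℕ) (x : ℝ) : P c n x = (Pr c n x : ℝ) := by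
  induction n with
  | zero => rfl
  | succ n ih => simp [P, Pr, ih]

noncomputable def Lr (c : ℕ → ℝ) (x : ℝ) : ℝ := x + ∑' n, c n * (Pr c n x)^2

theorem L_ofReal (c : ℕ → ℝ) (x : ℝ) : L c x = (Lr c x : ℝ) := by
  unfold L Lr
  push_cast
  congr 1
  apply tsum_congr
  intro n
  rw [P_ofReal]

theorem Lr_nonneg (hc0 : ∀ n, 0 ≤ c n) {x : ℝ} (hx : 0 ≤ x) : 0 ≤ Lr c x := by
  unfold Lr
  have : 0 ≤ ∑' n, c n * (Pr c n x)^2 := tsum_nonneg fun n => mul_nonneg (hc0 n) (sq_nonneg _)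
  linarith

end Pool.Agent.X66.IFS
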