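import Pool.Agent.X66.IFS.L

set_option autoImplicit false

namespace Pool.Agent.X66.IFS
open Filter Topology Metric

/-- parameters of the five maps -/
structure Par where
  δ : ℝ
  R : ℝ
  cc : Fin 5 → ℕ → ℝ
  hδ : 0 < δ
  hR : 1 ≤ R
  hδR : δ * R ≤ 1/64
  c0 : ∀ i n, 0 ≤ cc i n
  c1 : ∀ i n, cc i n ≤ δ * (1/4)^n

def av : Fin 5 → ℝ := ![0, 1, 2, 2, 2]
def ev : Fin 5 → ℝ := ![0, 0, 1, 1, 1]

theorem av0 (i : Fin 5) : 0 ≤ av i := by fin_cases i <;> simp [av]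
theorem av2 (i : Fin 5) : av i ≤ 2 := by fin_cases i <;> norm_num [av]
theorem ev0 (i : Fin 5) : 0 ≤ ev i := by fin_cases i <;> simp [ev]
theorem ev1 (i : Fin 5) : ev i ≤ 1 := by fin_cases i <;> simp [ev]

variable (p : Par)

namespace Par

theorem δ64 : p.δ ≤ 1/64 := by nlinarith [p.hδ, p.hR, p.hδR]

noncomputable def inn (i : Fin 5) (t z : ℂ) : ℂ := ev i * t + (z + av i * p.δ * z^2) / 4
noncomputable def inn1 (i : Fin 5) (z : ℂ) : ℂ := (1 + 2 * av i * p.δ * z) / 4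
noncomputable def inn2 (i : Fin 5) : ℂ := (2 * av i * p.δ) / 4

noncomputable def φ (i : Fin 5) (t z : ℂ) : ℂ := L (p.cc i) (p.inn i t z)
noncomputable def ψ (i : Fin 5) (t z : ℂ) : ℂ := deriv (L (p.cc i)) (p.inn i t z) * p.inn1 i z
noncomputable def χ (i : Fin 5) (t z : ℂ) : ℂ :=
  deriv (deriv (L (p.cc i))) (p.inn i t z) * p.inn1 i z * p.inn1 i z
    + deriv (L (p.cc i)) (p.inn i t z) * p.inn2 i
noncomputable def ν (i : Fin 5) (t z : ℂ) : ℂ := p.χ i t z / p.ψ i t z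

theorem hasDerivAt_inn (i : Fin 5) (t z : ℂ) : HasDerivAt (p.inn i t) (p.inn1 i z) z := by
  have h : HasDerivAt (fun z : ℂ => (z + av i * p.δ * z^2)/4) ((1 + av i * p.δ * (2 * z)) / 4) z := by
    have := (((hasDerivAt_id' z).add (((hasDerivAt_id' z).pow 2).const_mul ((av i : ℂ) * p.δ)))).div_const 4
    refine this.congr_deriv ?_
    simp
  refine ((h.const_add (ev i * t)).congr_deriv ?_ : HasDerivAt (p.inn i t) _ z)
  rw [inn1]; ring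

theorem hasDerivAt_inn1 (i : Fin 5) (z : ℂ) : HasDerivAt (p.inn1 i) (p.inn2 i) z := by
  have := ((((hasDerivAt_id' z).const_mul (2 * (av i : ℂ) * p.δ))).const_add 1).div_const 4
  refine (this.congr_deriv ?_ : HasDerivAt (p.inn1 i) _ z)
  rw [inn2]; ring

theorem inn_bound {r : ℝ} (hr : 1 ≤ r) (hδr : p.δ * r ≤ 1/64) (i : Fin 5) {t z : ℂ}
    (ht : ‖t‖ ≤ 1/4) (hz : ‖z‖ ≤ r) : ‖p.inn i t z‖ ≤ 65/128 * r := by
  have h1 : ‖(ev i : ℂ) * t‖ ≤ 1/4 := by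
    rw [norm_mul, Complex.norm_real, Real.norm_of_nonneg (ev0 i)]
    have := ev1 i; have := ev0 i; have := norm_nonneg t
    nlinarith
  have h2 : ‖(z + av i * p.δ * z^2) / 4‖ ≤ (r + 2 * p.δ * r^2) / 4 := by
    rw [norm_div]
    have h4 : ‖(4:ℂ)‖ = 4 := by norm_num
    rw [h4]
    apply div_le_div_of_nonneg_right _ (by norm_num)
    refine (norm_add_le _ _).trans (add_le_add hz ?_)
    rw [norm_mul, norm_mul, norm_pow, Complex.norm_real, Complex.norm_real,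
      Real.norm_of_nonneg (av0 i), Real.norm_of_nonneg p.hδ.le]
    have e1 : av i * p.δ ≤ 2 * p.δ := mul_le_mul_of_nonneg_right (av2 i) p.hδ.le
    have e2 : ‖z‖^2 ≤ r^2 := by
      apply pow_le_pow_left₀ (norm_nonneg z) hz
    exact mul_le_mul e1 e2 (by positivity) (by have := p.hδ; positivity)
  have h3 : ‖p.inn i t z‖ ≤ 1/4 + (r + 2 * p.δ * r^2) / 4 := (norm_add_le _ _).trans (add_le_add h1 h2)
  nlinarith

theorem inn_ball (i : Fin 5) {t z : ℂ} (ht : ‖t‖ ≤ 1/4) (hz : ‖z‖ ≤ p.R) :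
    p.inn i t z ∈ ball (0:ℂ) p.R := by
  rw [mem_ball_zero_iff]
  have := p.inn_bound p.hR p.hδR i ht hz
  have := p.hR
  linarith

theorem φ_bound {r : ℝ} (hr : 1 ≤ r) (hδr : p.δ * r ≤ 1/64) (i : Fin 5) {t z : ℂ}
    (ht : ‖t‖ ≤ 1/4) (hz : ‖z‖ ≤ r) : ‖p.φ i t z‖ ≤ 9/16 * r := by
  have h1 := p.inn_bound hr hδr i ht hz
  have h2 := L_sub_id (p.c0 i) (p.c1 i) (r := 65/128 * r) (by positivity)
    (by have := p.hδ; nlinarith) h1
  have h3 : ‖p.φ i t z‖ ≤ ‖L (p.cc i) (p.inn i t z) - p.inn i t z‖ + ‖p.inn i t z‖ := by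
    have := norm_add_le (L (p.cc i) (p.inn i t z) - p.inn i t z) (p.inn i t z)
    simpa [φ] using this
  linarith

theorem Rpos : 0 < p.R := lt_of_lt_of_le one_pos p.hR

theorem L_diffAt (i : Fin 5) {w : ℂ} (hw : w ∈ ball (0:ℂ) p.R) :
    HasDerivAt (L (p.cc i)) (deriv (L (p.cc i)) w) w :=
  ((L_diff (p.c0 i) (p.c1 i) p.Rpos.le p.hδR).differentiableAt (isOpen_ball.mem_nhds hw)).hasDerivAt

theorem L1_diffAt (i : Fin 5) {w : ℂ} (hw : w ∈ ball (0:ℂ) p.R) :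
    HasDerivAt (deriv (L (p.cc i))) (deriv (deriv (L (p.cc i))) w) w :=
  (((L_diff (p.c0 i) (p.c1 i) p.Rpos.le p.hδR).deriv isOpen_ball).differentiableAt
    (isOpen_ball.mem_nhds hw)).hasDerivAt

theorem L2_diffAt (i : Fin 5) {w : ℂ} (hw : w ∈ ball (0:ℂ) p.R) :
    DifferentiableAt ℂ (deriv (deriv (L (p.cc i)))) w :=
  ((((L_diff (p.c0 i) (p.c1 i) p.Rpos.le p.hδR).deriv isOpen_ball).deriv isOpen_ball).differentiableAt
    (isOpen_ball.mem_nhds hw))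

theorem hasDerivAt_φ (i : Fin 5) {t z : ℂ} (ht : ‖t‖ ≤ 1/4) (hz : ‖z‖ ≤ p.R) :
    HasDerivAt (p.φ i t) (p.ψ i t z) z :=
  (p.L_diffAt i (p.inn_ball i ht hz)).comp z (p.hasDerivAt_inn i t z)

theorem hasDerivAt_ψ (i : Fin 5) {t z : ℂ} (ht : ‖t‖ ≤ 1/4) (hz : ‖z‖ ≤ p.R) :
    HasDerivAt (p.ψ i t) (p.χ i t z) z := by
  have h := ((p.L1_diffAt i (p.inn_ball i ht hz)).comp z (p.hasDerivAt_inn i t z)).mul
    (p.hasDerivAt_inn1 i z)
  exact h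

theorem inn1_upper (i : Fin 5) {z : ℂ} (hz : ‖z‖ ≤ p.R) : ‖p.inn1 i z - 1/4‖ ≤ 1/64 := by
  have : p.inn1 i z - 1/4 = (2 * av i * p.δ * z) / 4 := by rw [inn1]; ring
  rw [this, norm_div, norm_mul, norm_mul, norm_mul, Complex.norm_real, Complex.norm_real,
      Real.norm_of_nonneg (av0 i), Real.norm_of_nonneg p.hδ.le]
  have h4 : ‖(4:ℂ)‖ = 4 := by norm_num
  have h2 : ‖(2:ℂ)‖ = 2 := by norm_num
  rw [h4, h2, div_le_iff₀ (by norm_num)]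
  have e1 : av i * p.δ ≤ 2 * p.δ := mul_le_mul_of_nonneg_right (av2 i) p.hδ.le
  have e2 : p.δ * ‖z‖ ≤ 1/64 := (mul_le_mul_of_nonneg_left hz p.hδ.le).trans p.hδR
  have e3 : 2 * av i * p.δ * ‖z‖ ≤ 2 * (2 * p.δ) * ‖z‖ := by
    have := norm_nonneg z
    nlinarith
  nlinarith

theorem ψ_upper (i : Fin 5) {t z : ℂ} (ht : ‖t‖ ≤ 1/4) (hz : ‖z‖ ≤ p.R) : ‖p.ψ i t z‖ ≤ 1/2 := by
  have h1 := L1_bound (p.c0 i) (p.c1 i) p.Rpos p.hδR (p.inn_bound p.hR p.hδR i ht hz)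
  have h2 := p.inn1_upper i hz
  have h3 : ‖deriv (L (p.cc i)) (p.inn i t z)‖ ≤ 6/5 := by
    have := norm_add_le (deriv (L (p.cc i)) (p.inn i t z) - 1) 1
    simp only [sub_add_cancel, norm_one] at this
    linarith
  have h4 : ‖p.inn1 i z‖ ≤ 17/64 := by
    have := norm_add_le (p.inn1 i z - 1/4) (1/4)
    have h5 : ‖(1/4:ℂ)‖ = 1/4 := by norm_num
    rw [sub_add_cancel, h5] at this
    linarith
  rw [ψ, norm_mul]
  have := norm_nonneg (p.inn1 i z)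
  nlinarith

theorem ψ_ne (i : Fin 5) {t z : ℂ} (ht : ‖t‖ ≤ 1/4) (hz : ‖z‖ ≤ p.R) : p.ψ i t z ≠ 0 := by
  have h1 := L1_bound (p.c0 i) (p.c1 i) p.Rpos p.hδR (p.inn_bound p.hR p.hδR i ht hz)
  have h2 := p.inn1_upper i hz
  apply mul_ne_zero
  · intro h; rw [h] at h1; norm_num at h1
  · intro h; rw [h] at h2; norm_num at h2

theorem χ_eq (i : Fin 5) {t z : ℂ} (ht : ‖t‖ ≤ 1/4) (hz : ‖z‖ ≤ p.R) :
    p.χ i t z = p.ψ i t z * p.ν i t z := by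
  rw [ν, mul_div_cancel₀ _ (p.ψ_ne i ht hz)]

theorem ψ_lower (i : Fin 5) {t z : ℂ} (ht : ‖t‖ ≤ 1/4) (hz : ‖z‖ ≤ p.R) : 1/8 ≤ ‖p.ψ i t z‖ := by
  have h1 := L1_bound (p.c0 i) (p.c1 i) p.Rpos p.hδR (p.inn_bound p.hR p.hδR i ht hz)
  have h2 := p.inn1_upper i hz
  have h3 : 4/5 ≤ ‖deriv (L (p.cc i)) (p.inn i t z)‖ := by
    have := norm_sub_norm_le (1:ℂ) (deriv (L (p.cc i)) (p.inn i t z))
    rw [norm_one, norm_sub_rev] at this
    linarith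
  have h4 : 15/64 ≤ ‖p.inn1 i z‖ := by
    have := norm_sub_norm_le (1/4:ℂ) (p.inn1 i z)
    have h5 : ‖(1/4:ℂ)‖ = 1/4 := by norm_num
    rw [norm_sub_rev, h5] at this
    linarith
  rw [ψ, norm_mul]
  nlinarith

theorem ν_bound : ∃ M : ℝ, 0 ≤ M ∧ ∀ (i : Fin 5) (t z : ℂ), ‖t‖ ≤ 1/4 → ‖z‖ ≤ 1 → ‖p.ν i t z‖ ≤ M := by
  have hR := p.hR
  have h1 : ∀ i : Fin 5, ∃ C : ℝ, ∀ w ∈ closedBall (0:ℂ) (65/128), ‖deriv (deriv (L (p.cc i))) w‖ ≤ C := by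
    intro i
    apply (isCompact_closedBall (0:ℂ) (65/128)).exists_bound_of_continuousOn
    intro w hw
    apply (p.L2_diffAt i ?_).continuousAt.continuousWithinAt
    rw [mem_closedBall_zero_iff] at hw
    rw [mem_ball_zero_iff]; linarith
  choose C hC using h1
  have hC0 : ∀ i, 0 ≤ C i := fun i => (norm_nonneg _).trans (hC i 0 (by simp; norm_num))
  refine ⟨8 * (∑ i, C i + 1), by
    have := Finset.sum_nonneg (fun i (_ : i ∈ Finset.univ) => hC0 i); positivity, ?_⟩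
  intro i t z ht hz
  have hzR : ‖z‖ ≤ p.R := hz.trans hR
  have e1 := p.inn_bound le_rfl (by have := p.δ64; linarith) i ht hz
  have e2 := hC i (p.inn i t z) (by rw [mem_closedBall_zero_iff]; linarith)
  have e3 := p.ψ_lower i ht hzR
  have e4 := p.inn1_upper i hzR
  have e5 : ‖p.inn1 i z‖ ≤ 1 := by
    have := norm_add_le (p.inn1 i z - 1/4) (1/4)
    have h5 : ‖(1/4:ℂ)‖ = 1/4 := by norm_num
    rw [sub_add_cancel, h5] at this
    linarith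
  have h1 := L1_bound (p.c0 i) (p.c1 i) p.Rpos p.hδR (p.inn_bound p.hR p.hδR i ht hzR)
  have h3 : ‖deriv (L (p.cc i)) (p.inn i t z)‖ ≤ 6/5 := by
    have := norm_add_le (deriv (L (p.cc i)) (p.inn i t z) - 1) 1
    simp only [sub_add_cancel, norm_one] at this
    linarith
  have e6 : ‖p.inn2 i‖ ≤ 1/4 := by
    rw [inn2, norm_div, norm_mul, norm_mul, Complex.norm_real, Complex.norm_real,
      Real.norm_of_nonneg (av0 i), Real.norm_of_nonneg p.hδ.le]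
    have h4 : ‖(4:ℂ)‖ = 4 := by norm_num
    have h2 : ‖(2:ℂ)‖ = 2 := by norm_num
    rw [h4, h2, div_le_iff₀ (by norm_num)]
    have := av2 i; have := av0 i; have := p.δ64; have := p.hδ
    nlinarith
  have e7 : ‖p.χ i t z‖ ≤ C i + 1 := by
    rw [χ]
    refine (norm_add_le _ _).trans ?_
    rw [norm_mul, norm_mul, norm_mul]
    have a1 : ‖deriv (deriv (L (p.cc i))) (p.inn i t z)‖ * ‖p.inn1 i z‖ * ‖p.inn1 i z‖ ≤ C i := by
      have b1 : ‖deriv (deriv (L (p.cc i))) (p.inn i t z)‖ * ‖p.inn1 i z‖ ≤ C i := by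
        calc _ ≤ C i * 1 := mul_le_mul e2 e5 (norm_nonneg _) (hC0 i)
          _ = C i := mul_one _
      calc _ ≤ C i * 1 := mul_le_mul b1 e5 (norm_nonneg _) (hC0 i)
          _ = C i := mul_one _
    have a2 : ‖deriv (L (p.cc i)) (p.inn i t z)‖ * ‖p.inn2 i‖ ≤ 1 := by
      have := norm_nonneg (p.inn2 i)
      have := norm_nonneg (deriv (L (p.cc i)) (p.inn i t z))
      nlinarith
    linarith
  have e8 : C i ≤ ∑ i, C i := Finset.single_le_sum (fun i _ => hC0 i) (Finset.mem_univ i)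
  rw [ν, norm_div, div_le_iff₀ (by linarith)]
  have := Finset.sum_nonneg (fun i (_ : i ∈ Finset.univ) => hC0 i)
  nlinarith

/-! differentiability in the parameter -/

theorem inn_t (i : Fin 5) {z : ℂ → ℂ} {t : ℂ} (hz : DifferentiableAt ℂ z t) :
    DifferentiableAt ℂ (fun t => p.inn i t (z t)) t := by
  unfold inn; fun_prop

theorem inn1_t (i : Fin 5) {z : ℂ → ℂ} {t : ℂ} (hz : DifferentiableAt ℂ z t) :
    DifferentiableAt ℂ (fun t => p.inn1 i (z t)) t := by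
  unfold inn1; fun_prop

theorem φ_t (i : Fin 5) {z : ℂ → ℂ} {t : ℂ} (ht : ‖t‖ ≤ 1/4) (hzR : ‖z t‖ ≤ p.R)
    (hz : DifferentiableAt ℂ z t) : DifferentiableAt ℂ (fun t => p.φ i t (z t)) t :=
  (p.L_diffAt i (p.inn_ball i ht hzR)).differentiableAt.fun_comp' t (p.inn_t i hz)

theorem ψ_t (i : Fin 5) {z : ℂ → ℂ} {t : ℂ} (ht : ‖t‖ ≤ 1/4) (hzR : ‖z t‖ ≤ p.R)
    (hz : DifferentiableAt ℂ z t) : DifferentiableAt ℂ (fun t => p.ψ i t (z t)) t :=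
  ((p.L1_diffAt i (p.inn_ball i ht hzR)).differentiableAt.fun_comp' t (p.inn_t i hz)).mul
    (p.inn1_t i hz)

theorem χ_t (i : Fin 5) {z : ℂ → ℂ} {t : ℂ} (ht : ‖t‖ ≤ 1/4) (hzR : ‖z t‖ ≤ p.R)
    (hz : DifferentiableAt ℂ z t) : DifferentiableAt ℂ (fun t => p.χ i t (z t)) t :=
  ((((p.L2_diffAt i (p.inn_ball i ht hzR)).fun_comp' t (p.inn_t i hz)).mul
    (p.inn1_t i hz)).mul (p.inn1_t i hz)).add
    (((p.L1_diffAt i (p.inn_ball i ht hzR)).differentiableAt.fun_comp' t (p.inn_t i hz)).mul_const _)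

theorem ν_t (i : Fin 5) {z : ℂ → ℂ} {t : ℂ} (ht : ‖t‖ ≤ 1/4) (hzR : ‖z t‖ ≤ p.R)
    (hz : DifferentiableAt ℂ z t) : DifferentiableAt ℂ (fun t => p.ν i t (z t)) t :=
  (p.χ_t i ht hzR hz).div (p.ψ_t i ht hzR hz) (p.ψ_ne i ht hzR)

end Par
end Pool.Agent.X66.IFS
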