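import Pool.Agent.X66.IFS.M

set_option autoImplicit false

namespace Pool.Agent.X66.IFS
open Filter Topology Metric

theorem real_deriv {G : ℂ → ℂ} {g : ℝ → ℝ} {G' : ℂ} {x : ℝ}
    (hg : ∀ᶠ y : ℝ in 𝓝 x, G (y:ℂ) = (g y : ℝ)) (h : HasDerivAt G G' (x:ℂ)) :
    HasDerivAt g G'.re x ∧ ((G'.re : ℝ) : ℂ) = G' := by
  have h1 : HasDerivAt (fun y : ℝ => (G y).re) G'.re x := h.real_of_complex
  have h2 : HasDerivAt g G'.re x := by
    apply h1.congr_of_eventuallyEq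
    filter_upwards [hg] with y hy
    rw [hy]; simp
  refine ⟨h2, ?_⟩
  have h3 : HasDerivAt (fun y : ℝ => ((g y : ℝ) : ℂ)) ((G'.re : ℝ) : ℂ) x := h2.ofReal_comp
  have h4 : HasDerivAt (fun y : ℝ => ((g y : ℝ) : ℂ)) G' x := by
    apply h.comp_ofReal.congr_of_eventuallyEq
    filter_upwards [hg] with y hy
    rw [hy]
  exact h3.unique h4

def pw {α : Type*} (u : List α) : ℕ → List α
  | 0 => []
  | K+1 => u ++ pw u K

theorem pw_length {α : Type*} (u : List α) (K : ℕ) : (pw u K).length = K * u.length := by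
  induction K with
  | zero => simp [pw]
  | succ K ih => simp [pw, ih]; ring

namespace Par
variable (p : Par)

/-- the real maps -/
noncomputable def fr (i : Fin 5) (t x : ℝ) : ℝ :=
  Lr (p.cc i) (ev i * t + (x + av i * p.δ * x^2)/4)

theorem φ_ofReal (i : Fin 5) (t x : ℝ) : p.φ i t x = (p.fr i t x : ℝ) := by
  rw [φ, fr, ← L_ofReal]
  congr 1
  rw [inn]; push_cast; ring

theorem fr_maps (i : Fin 5) {t x : ℝ} (ht0 : 0 ≤ t) (ht : t ≤ 1/4) (hx0 : 0 ≤ x) (hx1 : x ≤ 1) :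
    0 ≤ p.fr i t x ∧ p.fr i t x ≤ 1 := by
  constructor
  · apply Lr_nonneg (p.c0 i)
    have := ev0 i; have := av0 i; have := p.hδ
    positivity
  · have h1 := p.φ_bound (r := 1) le_rfl (by have := p.δ64; linarith) i (t := t) (z := x)
      (by rw [Complex.norm_real, Real.norm_of_nonneg ht0]; exact ht)
      (by rw [Complex.norm_real, Real.norm_of_nonneg hx0]; exact hx1)
    rw [φ_ofReal, Complex.norm_real] at h1
    have := le_abs_self (p.fr i t x)
    rw [Real.norm_eq_abs] at h1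
    linarith

noncomputable def Z (t x : ℂ) : List (Fin 5) → ℂ
  | [] => x
  | i :: w => p.φ i t (Z t x w)
noncomputable def D (t x : ℂ) : List (Fin 5) → ℂ
  | [] => 1
  | i :: w => D t x w * p.ψ i t (p.Z t x w)
noncomputable def H (t x : ℂ) : List (Fin 5) → ℂ
  | [] => 0
  | i :: w => H t x w + p.D t x w * p.ν i t (p.Z t x w)

theorem Z_bound {r : ℝ} (hr : 1 ≤ r) (hδr : p.δ * r ≤ 1/64) {t x : ℂ}
    (ht : ‖t‖ ≤ 1/4) (hx : ‖x‖ ≤ r) (w : List (Fin 5)) : ‖p.Z t x w‖ ≤ r := by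
  induction w with
  | nil => exact hx
  | cons i w ih =>
    have := p.φ_bound hr hδr i ht ih
    rw [Z]; linarith

theorem Z_R {t x : ℂ} (ht : ‖t‖ ≤ 1/4) (hx : ‖x‖ ≤ p.R) (w : List (Fin 5)) : ‖p.Z t x w‖ ≤ p.R :=
  p.Z_bound p.hR p.hδR ht hx w

theorem Z_1 {t x : ℂ} (ht : ‖t‖ ≤ 1/4) (hx : ‖x‖ ≤ 1) (w : List (Fin 5)) : ‖p.Z t x w‖ ≤ 1 :=
  p.Z_bound le_rfl (by have := p.δ64; linarith) ht hx w

theorem D_bound {t x : ℂ} (ht : ‖t‖ ≤ 1/4) (hx : ‖x‖ ≤ p.R) (w : List (Fin 5)) :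
    ‖p.D t x w‖ ≤ (1/2)^w.length := by
  induction w with
  | nil => simp [D]
  | cons i w ih =>
    rw [D, norm_mul, List.length_cons, pow_succ]
    exact mul_le_mul ih (p.ψ_upper i ht (p.Z_R ht hx w)) (norm_nonneg _) (by positivity)

theorem D_ne {t x : ℂ} (ht : ‖t‖ ≤ 1/4) (hx : ‖x‖ ≤ p.R) (w : List (Fin 5)) :
    p.D t x w ≠ 0 := by
  induction w with
  | nil => simp [D]
  | cons i w ih => exact mul_ne_zero ih (p.ψ_ne i ht (p.Z_R ht hx w))

theorem hasDerivAt_Z {t x : ℂ} (ht : ‖t‖ ≤ 1/4) (hx : ‖x‖ ≤ p.R) (w : List (Fin 5)) :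
    HasDerivAt (fun x => p.Z t x w) (p.D t x w) x := by
  induction w with
  | nil => exact hasDerivAt_id' x
  | cons i w ih =>
    have h := (p.hasDerivAt_φ i ht (p.Z_R ht hx w)).comp x ih
    refine (h.congr_deriv ?_ : HasDerivAt (fun x => p.Z t x (i::w)) _ x)
    rw [D]; ring

theorem hasDerivAt_D {t x : ℂ} (ht : ‖t‖ ≤ 1/4) (hx : ‖x‖ ≤ p.R) (w : List (Fin 5)) :
    HasDerivAt (fun x => p.D t x w) (p.D t x w * p.H t x w) x := by
  induction w with
  | nil => simpa [H, D] using hasDerivAt_const x (1:ℂ)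
  | cons i w ih =>
    have h := ih.mul ((p.hasDerivAt_ψ i ht (p.Z_R ht hx w)).comp x (p.hasDerivAt_Z ht hx w))
    refine (h.congr_deriv ?_ : HasDerivAt (fun x => p.D t x (i::w)) _ x)
    rw [p.χ_eq i ht (p.Z_R ht hx w), D, H]
    simp only [Function.comp]
    ring

theorem H_append {M : ℝ} (_hM0 : 0 ≤ M)
    (hM : ∀ (i : Fin 5) (t z : ℂ), ‖t‖ ≤ 1/4 → ‖z‖ ≤ 1 → ‖p.ν i t z‖ ≤ M)
    {t x : ℂ} (ht : ‖t‖ ≤ 1/4) (hx : ‖x‖ ≤ 1) (u w : List (Fin 5)) :
    ‖p.H t x (u ++ w) - p.H t x w‖ ≤ M * (1/2)^w.length * (2 - 2 * (1/2)^u.length) := by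
  induction u with
  | nil => simp
  | cons i u ih =>
    rw [List.cons_append, H]
    have h1 : ‖p.D t x (u ++ w) * p.ν i t (p.Z t x (u++w))‖ ≤ (1/2)^(u.length + w.length) * M := by
      rw [norm_mul]
      apply mul_le_mul _ (hM i t _ ht (p.Z_1 ht hx _)) (norm_nonneg _) (by positivity)
      rw [← List.length_append]
      exact p.D_bound ht (hx.trans p.hR) _
    have h2 : ‖p.H t x (u ++ w) + p.D t x (u ++ w) * p.ν i t (p.Z t x (u ++ w)) - p.H t x w‖
        ≤ ‖p.H t x (u ++ w) - p.H t x w‖ + ‖p.D t x (u ++ w) * p.ν i t (p.Z t x (u++w))‖ := by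
      refine le_trans (le_of_eq ?_) (norm_add_le _ _)
      congr 1; ring
    refine h2.trans ((add_le_add ih h1).trans (le_of_eq ?_))
    rw [List.length_cons, pow_succ, pow_add]; ring

theorem H_append' {M : ℝ} (hM0 : 0 ≤ M)
    (hM : ∀ (i : Fin 5) (t z : ℂ), ‖t‖ ≤ 1/4 → ‖z‖ ≤ 1 → ‖p.ν i t z‖ ≤ M)
    {t x : ℂ} (ht : ‖t‖ ≤ 1/4) (hx : ‖x‖ ≤ 1) (u w : List (Fin 5)) :
    ‖p.H t x (u ++ w) - p.H t x w‖ ≤ 2 * M * (1/2)^w.length := by
  refine (p.H_append hM0 hM ht hx u w).trans ?_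
  have h1 : (0:ℝ) ≤ (1/2)^u.length := by positivity
  have h2 : (0:ℝ) ≤ M * (1/2)^w.length := by positivity
  nlinarith

/-! dependence on the parameter -/

theorem Z_t {t : ℂ} (ht : ‖t‖ ≤ 1/4) (w : List (Fin 5)) :
    DifferentiableAt ℂ (fun t => p.Z t 0 w) t := by
  induction w with
  | nil => simp only [Z]; exact differentiableAt_const _
  | cons i w ih =>
    exact p.φ_t i (z := fun t => p.Z t 0 w) ht (p.Z_R ht (by simp [p.Rpos.le]) w) ih

theorem D_t {t : ℂ} (ht : ‖t‖ ≤ 1/4) (w : List (Fin 5)) :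
    DifferentiableAt ℂ (fun t => p.D t 0 w) t := by
  induction w with
  | nil => simp only [D]; exact differentiableAt_const _
  | cons i w ih =>
    exact ih.mul (p.ψ_t i (z := fun t => p.Z t 0 w) ht (p.Z_R ht (by simp [p.Rpos.le]) w) (p.Z_t ht w))

theorem H_t {t : ℂ} (ht : ‖t‖ ≤ 1/4) (w : List (Fin 5)) :
    DifferentiableAt ℂ (fun t => p.H t 0 w) t := by
  induction w with
  | nil => simp only [H]; exact differentiableAt_const _
  | cons i w ih =>
    exact ih.add ((p.D_t ht w).mul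
      (p.ν_t i (z := fun t => p.Z t 0 w) ht (p.Z_R ht (by simp [p.Rpos.le]) w) (p.Z_t ht w)))

noncomputable def HH (u : List (Fin 5)) (t : ℂ) : ℂ :=
  ∑' K, (p.H t 0 (pw u (K+1)) - p.H t 0 (pw u K))

theorem step_bound {M : ℝ} (hM0 : 0 ≤ M)
    (hM : ∀ (i : Fin 5) (t z : ℂ), ‖t‖ ≤ 1/4 → ‖z‖ ≤ 1 → ‖p.ν i t z‖ ≤ M)
    {u : List (Fin 5)} (hu : u ≠ []) {t : ℂ} (ht : ‖t‖ ≤ 1/4) (K : ℕ) :
    ‖p.H t 0 (pw u (K+1)) - p.H t 0 (pw u K)‖ ≤ 2 * M * (1/2)^K := by
  refine (p.H_append' hM0 hM ht (by simp) u (pw u K)).trans ?_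
  apply mul_le_mul_of_nonneg_left _ (by positivity)
  apply pow_le_pow_of_le_one (by norm_num) (by norm_num)
  rw [pw_length]
  exact Nat.le_mul_of_pos_right K (List.length_pos_iff.2 hu)

theorem geo_summ (M : ℝ) : Summable fun K : ℕ => 2 * M * (1/2:ℝ)^K :=
  (summable_geometric_of_lt_one (by norm_num) (by norm_num)).mul_left _

theorem HH_tendsto {u : List (Fin 5)} (hu : u ≠ []) {t : ℂ} (ht : ‖t‖ ≤ 1/4) :
    Tendsto (fun K => p.H t 0 (pw u K)) atTop (𝓝 (p.HH u t)) := by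
  obtain ⟨M, hM0, hM⟩ := p.ν_bound
  have hs : Summable fun K => (p.H t 0 (pw u (K+1)) - p.H t 0 (pw u K)) :=
    Summable.of_norm_bounded (geo_summ M) (fun K => p.step_bound hM0 hM hu ht K)
  have h := hs.hasSum.tendsto_sum_nat
  have e : (fun n => ∑ K ∈ Finset.range n, (p.H t 0 (pw u (K+1)) - p.H t 0 (pw u K)))
      = fun K => p.H t 0 (pw u K) := by
    funext n
    rw [Finset.sum_range_sub (fun K => p.H t 0 (pw u K))]
    simp [pw, H]
  rw [e] at h
  exact h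

theorem HH_diff {u : List (Fin 5)} (hu : u ≠ []) :
    DifferentiableOn ℂ (p.HH u) (ball 0 (1/4)) := by
  obtain ⟨M, hM0, hM⟩ := p.ν_bound
  apply Complex.differentiableOn_tsum_of_summable_norm (geo_summ M) _ isOpen_ball
  · intro K t ht
    exact p.step_bound hM0 hM hu (mem_ball_zero_iff.1 ht).le K
  · intro K t ht
    exact ((p.H_t (mem_ball_zero_iff.1 ht).le _).sub (p.H_t (mem_ball_zero_iff.1 ht).le _)).differentiableWithinAt

/-! values at `t = 0` -/
theorem inn_zero (i : Fin 5) : p.inn i 0 0 = 0 := by simp [inn]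
theorem L_zero (c : ℕ → ℝ) : L c 0 = 0 := by simp [L, P_zero]
theorem φ_zero (i : Fin 5) : p.φ i 0 0 = 0 := by rw [φ, inn_zero, L_zero]
theorem Z_zero (w : List (Fin 5)) : p.Z 0 0 w = 0 := by
  induction w with
  | nil => rfl
  | cons i w ih => rw [Z, ih, φ_zero]
theorem inn1_zero (i : Fin 5) : p.inn1 i 0 = 1/4 := by simp [inn1]
theorem ψ_zero (i : Fin 5) : p.ψ i 0 0 = 1/4 := by
  rw [ψ, inn_zero, inn1_zero, L1_zero (p.c0 i) (p.c1 i) p.Rpos p.hδR]; ring
theorem D_zero (w : List (Fin 5)) : p.D 0 0 w = (1/4)^w.length := by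
  induction w with
  | nil => rfl
  | cons i w ih => rw [D, ih, Z_zero, ψ_zero, List.length_cons, pow_succ]
theorem ν_zero (i : Fin 5) : p.ν i 0 0 = deriv (deriv (L (p.cc i))) 0 / 4 + 2 * av i * p.δ := by
  rw [ν, ψ_zero, χ, inn_zero, inn1_zero, L1_zero (p.c0 i) (p.c1 i) p.Rpos p.hδR, inn2]
  ring
theorem H_zero_cons (i : Fin 5) (w : List (Fin 5)) :
    p.H 0 0 (i :: w) = p.H 0 0 w + (1/4)^w.length * p.ν i 0 0 := by
  rw [H, D_zero, Z_zero]
theorem H_zero_append (u w : List (Fin 5)) :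
    p.H 0 0 (u ++ w) = p.H 0 0 w + (1/4)^w.length * p.H 0 0 u := by
  induction u with
  | nil => simp [H]
  | cons i u ih =>
    rw [List.cons_append, H_zero_cons, H_zero_cons, ih, List.length_append, pow_add]; ring

theorem HH_zero {u : List (Fin 5)} (hu : u ≠ []) :
    p.HH u 0 = p.H 0 0 u / (1 - (1/4)^u.length) := by
  have h1 : ∀ K, p.H 0 0 (pw u (K+1)) - p.H 0 0 (pw u K) = ((1/4)^u.length)^K * p.H 0 0 u := by
    intro K
    rw [pw, H_zero_append, pw_length, ← pow_mul, mul_comm K]; ring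
  rw [HH, tsum_congr h1, tsum_mul_right, tsum_geometric_of_norm_lt_one]
  · rw [mul_comm]; exact (div_eq_mul_inv _ _).symm
  · rw [norm_pow]
    apply pow_lt_one₀ (norm_nonneg _) (by norm_num)
    simpa [List.length_eq_zero_iff] using hu

theorem HH_ne {u v : List (Fin 5)} (hl : u.length = v.length)
    (h : p.H 0 0 u ≠ p.H 0 0 v) : p.HH u 0 ≠ p.HH v 0 := by
  have hu : u ≠ [] := by
    rintro rfl
    have : v = [] := by simpa using hl.symm
    subst this
    exact h rfl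
  have hv : v ≠ [] := by
    rintro rfl
    have : u = [] := by simpa using hl
    exact hu this
  rw [p.HH_zero hu, p.HH_zero hv, ← hl]
  intro h'
  apply h
  have hne : (1 - (1/4:ℂ)^u.length) ≠ 0 := by
    intro h0
    have h1 : (1/4:ℂ)^u.length = 1 := (sub_eq_zero.1 h0).symm
    have h2 : ‖(1/4:ℂ)^u.length‖ < 1 := by
      rw [norm_pow]
      apply pow_lt_one₀ (norm_nonneg _) (by norm_num)
      simpa [List.length_eq_zero_iff] using hu
    rw [h1] at h2; simp at h2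
  exact (div_left_inj' hne).1 h'

/-- a good parameter exists -/
theorem exists_t (hA : ∀ u v : List (Fin 5), u.length = v.length → u ≠ v → p.H 0 0 u ≠ p.H 0 0 v) :
    ∃ t : ℝ, 0 < t ∧ t ≤ 1/8 ∧ ∀ u v : List (Fin 5), u.length = v.length → u ≠ v →
      p.HH u t ≠ p.HH v t := by
  have hfin : ∀ uv : List (Fin 5) × List (Fin 5),
      ({t : ℝ | t ∈ Set.Icc (1/16:ℝ) (1/8) ∧ uv.1.length = uv.2.length ∧ uv.1 ≠ uv.2 ∧
        p.HH uv.1 t = p.HH uv.2 t}).Countable := by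
    rintro ⟨u, v⟩
    by_cases hcase : u.length = v.length ∧ u ≠ v
    swap
    · convert Set.countable_empty using 1
      ext t; simp only [Set.mem_setOf_eq, Set.mem_empty_iff_false, iff_false]
      rintro ⟨_, h1, h2, _⟩; exact hcase ⟨h1, h2⟩
    obtain ⟨hl, hne⟩ := hcase
    have hu : u ≠ [] := by
      rintro rfl
      exact hne (by simpa using hl.symm : v = []).symm
    have hv : v ≠ [] := by
      rintro rfl
      exact hne (by simpa using hl)
    apply Set.Finite.countable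
    by_contra hinf
    have hinf : Set.Infinite {t : ℝ | t ∈ Set.Icc (1/16:ℝ) (1/8) ∧ (u, v).1.length = (u, v).2.length ∧ (u, v).1 ≠ (u, v).2 ∧
        p.HH (u, v).1 t = p.HH (u, v).2 t} := hinf
    obtain ⟨t0, ht0, hacc⟩ := hinf.exists_accPt_of_subset_isCompact (K := Set.Icc (1/16:ℝ) (1/8))
      isCompact_Icc (fun t ht => ht.1)
    have hfr := accPt_iff_frequently.1 hacc
    have hAn : AnalyticOnNhd ℂ (fun t => p.HH u t - p.HH v t) (ball 0 (1/4)) :=
      ((p.HH_diff hu).sub (p.HH_diff hv)).analyticOnNhd isOpen_ball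
    have hcon : IsPreconnected (ball (0:ℂ) (1/4)) := (convex_ball 0 _).isPreconnected
    have ht0b : (t0 : ℂ) ∈ ball (0:ℂ) (1/4) := by
      rw [mem_ball_zero_iff, Complex.norm_real, Real.norm_of_nonneg (by linarith [ht0.1])]
      linarith [ht0.2]
    have hfc : ∃ᶠ z in 𝓝[≠] (t0:ℂ), (fun t => p.HH u t - p.HH v t) z = 0 := by
      have hmap : Tendsto (fun x : ℝ => (x:ℂ)) (𝓝[≠] t0) (𝓝[≠] (t0:ℂ)) := by
        apply tendsto_nhdsWithin_of_tendsto_nhds_of_eventually_within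
        · exact (Complex.continuous_ofReal.tendsto t0).mono_left nhdsWithin_le_nhds
        · filter_upwards [self_mem_nhdsWithin] with x hx
          simpa using hx
      apply hmap.frequently
      have h1 : ∃ᶠ y in 𝓝[≠] t0, y ∈ {t : ℝ | t ∈ Set.Icc (1/16:ℝ) (1/8) ∧ (u, v).1.length = (u, v).2.length ∧ (u, v).1 ≠ (u, v).2 ∧
        p.HH (u, v).1 t = p.HH (u, v).2 t} := by
        rw [frequently_nhdsWithin_iff]
        refine hfr.mono ?_
        rintro y ⟨h1, h2⟩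
        exact ⟨h2, h1⟩
      refine h1.mono ?_
      rintro y ⟨_, _, _, hy⟩
      simp only at hy ⊢
      rw [hy, sub_self]
    have hz := hAn.eqOn_zero_of_preconnected_of_frequently_eq_zero hcon ht0b hfc
    have h0 := hz (mem_ball_self (by norm_num) : (0:ℂ) ∈ ball (0:ℂ) (1/4))
    simp only [Pi.zero_apply, sub_eq_zero] at h0
    exact p.HH_ne hl (hA u v hl hne) h0
  have hc : (⋃ uv : List (Fin 5) × List (Fin 5),
      ({t : ℝ | t ∈ Set.Icc (1/16:ℝ) (1/8) ∧ uv.1.length = uv.2.length ∧ uv.1 ≠ uv.2 ∧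
        p.HH uv.1 t = p.HH uv.2 t})).Countable := Set.countable_iUnion hfin
  have hnot : ¬ (Set.Icc (1/16:ℝ) (1/8)) ⊆ (⋃ uv : List (Fin 5) × List (Fin 5),
      ({t : ℝ | t ∈ Set.Icc (1/16:ℝ) (1/8) ∧ uv.1.length = uv.2.length ∧ uv.1 ≠ uv.2 ∧
        p.HH uv.1 t = p.HH uv.2 t})) := by
    intro hsub
    have := hc.mono hsub
    exact (Cardinal.Real.Icc_countable_iff.1 this).not_gt (by norm_num)
  obtain ⟨t, ht, htn⟩ := Set.not_subset.1 hnot
  refine ⟨t, by linarith [ht.1], ht.2, ?_⟩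
  intro u v hl hne heq
  apply htn
  rw [Set.mem_iUnion]
  exact ⟨(u, v), ht, hl, hne, heq⟩

end Par
end Pool.Agent.X66.IFS
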